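import Pool.Agent.Helper38.Weiss.Api

/-! Packet W-F: the rotating mean ergodic theorem. -/

open Set Filter Topology MeasureTheory Pool.Agent.Helper38.Weiss

namespace Pool.Agent.Helper23.Weiss

/-- The abstract part: rotating averages converge to an invariant vector. -/
theorem rot_hilbert {H : Type*} [NormedAddCommGroup H] [InnerProductSpace ℝ H] [CompleteSpace H]
    (U : H →L[ℝ] H) (hU : ∀ x, ‖U x‖ ≤ ‖x‖) (L : ℕ) (hL : 0 < L) (f : H) :
    ∃ h : H, U h = h ∧ Tendsto (fun m : ℕ => ((L : ℝ) * m)⁻¹ • ∑ i ∈ Finset.range L,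
      ∑ k ∈ Finset.range m, (U ^ (i * (m * L + 1) + k * L)) f) atTop (𝓝 h) := by
  have hUp : ∀ n : ℕ, ∀ x, ‖(U ^ n) x‖ ≤ ‖x‖ := by
    intro n
    induction n with
    | zero => intro x; simp
    | succ n ih =>
      intro x
      rw [pow_succ]
      exact (ih (U x)).trans (hU x)
  have hV : ‖U ^ L‖ ≤ 1 :=
    ContinuousLinearMap.opNorm_le_bound _ zero_le_one (fun x => by rw [one_mul]; exact hUp L x)
  have hmean := (U ^ L).tendsto_birkhoffAverage_orthogonalProjection hV f
  generalize hq : ((U ^ L).eqLocus (1 : H →L[ℝ] H)).orthogonalProjectionOnto f = q at hmean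
  obtain ⟨g, hVg⟩ := q
  change (U ^ L) g = g at hVg
  change Tendsto _ atTop (𝓝 g) at hmean
  have hVgk : ∀ k : ℕ, (U ^ (L * k)) g = g := by
    intro k
    induction k with
    | zero => simp
    | succ k ih =>
      rw [Nat.mul_succ, pow_add]
      change (U ^ (L * k)) ((U ^ L) g) = g
      rw [hVg, ih]
  have hB : ∀ m : ℕ, birkhoffAverage ℝ (U ^ L : H →L[ℝ] H) _root_.id m f =
      (m : ℝ)⁻¹ • ∑ k ∈ Finset.range m, (U ^ (k * L)) f := by
    intro m
    rw [birkhoffAverage, birkhoffSum]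
    congr 1
    refine Finset.sum_congr rfl fun k _ => ?_
    rw [mul_comm, pow_mul]
    simp
  refine ⟨(L : ℝ)⁻¹ • ∑ i ∈ Finset.range L, (U ^ i) g, ?_, ?_⟩
  · rw [map_smul, map_sum]
    congr 1
    have h1 : ∀ i, U ((U ^ i) g) = (U ^ (i + 1)) g := by
      intro i
      rw [pow_succ']; rfl
    simp only [h1]
    have h2 := Finset.sum_range_succ' (fun i => (U ^ i) g) L
    have h3 := Finset.sum_range_succ (fun i => (U ^ i) g) L
    rw [h2] at h3
    simp only [pow_zero, one_apply_eq_self] at h3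
    rw [hVg] at h3
    exact add_right_cancel h3
  · have hzero : Tendsto (fun m : ℕ => ‖birkhoffAverage ℝ (U ^ L : H →L[ℝ] H) _root_.id m f - g‖)
        atTop (𝓝 0) := by
      have := (hmean.sub_const g).norm
      simpa using this
    rw [tendsto_iff_norm_sub_tendsto_zero]
    refine squeeze_zero (fun _ => norm_nonneg _) (fun m => ?_) hzero
    have e1 : ((L : ℝ) * m)⁻¹ • ∑ i ∈ Finset.range L,
        ∑ k ∈ Finset.range m, (U ^ (i * (m * L + 1) + k * L)) f =
        (L : ℝ)⁻¹ • ∑ i ∈ Finset.range L, (U ^ (i * (m * L + 1)))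
          (birkhoffAverage ℝ (U ^ L : H →L[ℝ] H) _root_.id m f) := by
      rw [mul_inv, mul_smul]
      congr 1
      rw [Finset.smul_sum]
      refine Finset.sum_congr rfl fun i _ => ?_
      rw [hB, map_smul, map_sum]
      congr 1
      refine Finset.sum_congr rfl fun k _ => ?_
      rw [pow_add]; rfl
    have e2 : (L : ℝ)⁻¹ • ∑ i ∈ Finset.range L, (U ^ i) g =
        (L : ℝ)⁻¹ • ∑ i ∈ Finset.range L, (U ^ (i * (m * L + 1))) g := by
      congr 1
      refine Finset.sum_congr rfl fun i _ => ?_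
      have : i * (m * L + 1) = i + L * (i * m) := by ring
      rw [this, pow_add]
      change _ = (U ^ i) ((U ^ (L * (i * m))) g)
      rw [hVgk]
    rw [e1, e2, ← smul_sub, ← Finset.sum_sub_distrib, norm_smul]
    set b := birkhoffAverage ℝ (U ^ L : H →L[ℝ] H) _root_.id m f
    have hL' : (0 : ℝ) < L := by exact_mod_cast hL
    calc ‖(L : ℝ)⁻¹‖ * ‖∑ i ∈ Finset.range L,
          ((U ^ (i * (m * L + 1))) b - (U ^ (i * (m * L + 1))) g)‖
        ≤ (L : ℝ)⁻¹ * ∑ i ∈ Finset.range L, ‖b - g‖ := by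
          rw [Real.norm_of_nonneg (by positivity)]
          refine mul_le_mul_of_nonneg_left ?_ (by positivity)
          refine norm_sum_le_of_le _ fun i _ => ?_
          rw [← map_sub]
          exact hUp _ _
      _ = ‖b - g‖ := by
          rw [Finset.sum_const, Finset.card_range, nsmul_eq_mul]
          field_simp

theorem rot_ergodic {X : Type*} [MeasurableSpace X] (ν : Measure X) [IsProbabilityMeasure ν]
    (F : X → X) (hF : Ergodic F ν) (L : ℕ) (hL : 0 < L) (s : Set X) (hs : MeasurableSet s) :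
    Tendsto (fun m : ℕ => ∫ x, |(∑ i ∈ Finset.range L, ∑ k ∈ Finset.range m,
      s.indicator (fun _ => (1 : ℝ)) (F^[i * (m * L + 1) + k * L] x)) / (L * m) - (ν s).toReal| ∂ν)
      atTop (𝓝 0) := by
  classical
  have hmp := hF.toMeasurePreserving
  have hmeas : ∀ n : ℕ, MeasurableSet (F^[n] ⁻¹' s) := fun n => (hmp.measurable.iterate n) hs
  let U : Lp ℝ 2 ν →L[ℝ] Lp ℝ 2 ν := (Lp.compMeasurePreservingₗᵢ ℝ F hmp).toContinuousLinearMap
  let e : ℕ → Lp ℝ 2 ν := fun n => indicatorConstLp 2 (hmeas n) (measure_ne_top _ _) (1 : ℝ)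
  have hUval : ∀ x : Lp ℝ 2 ν, U x = Lp.compMeasurePreserving F hmp x := fun _ => rfl
  have hUe : ∀ n, U (e n) = e (n + 1) := by
    intro n
    rw [hUval]
    have := Lp.indicatorConstLp_compMeasurePreserving (p := 2) (hmeas n)
      (measure_ne_top ν _) (1 : ℝ) hmp
    rw [this]
    rfl
  have hUpe : ∀ n, (U ^ n) (e 0) = e n := by
    intro n
    induction n with
    | zero => simp
    | succ n ih =>
      rw [pow_succ']
      change U ((U ^ n) (e 0)) = _
      rw [ih, hUe]
  obtain ⟨h, hUh, hlim⟩ := rot_hilbert U (fun x => by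
    rw [hUval, Lp.norm_compMeasurePreserving]) L hL (e 0)
  simp only [hUpe] at hlim
  -- `h` is constant
  obtain ⟨c, hc⟩ : ∃ c : ℝ, (h : X → ℝ) =ᵐ[ν] fun _ => c := by
    have h1 : (h : X → ℝ) ∘ F =ᵐ[ν] h := by
      have h2 := Lp.coeFn_compMeasurePreserving h hmp
      rw [← hUval, hUh] at h2
      exact h2.symm
    exact hF.ae_eq_const_of_ae_eq_comp_ae (Lp.aestronglyMeasurable h) h1
  -- the averages as functions
  set a : ℕ → X → ℝ := fun m x => (∑ i ∈ Finset.range L, ∑ k ∈ Finset.range m,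
      s.indicator (fun _ => (1 : ℝ)) (F^[i * (m * L + 1) + k * L] x)) / (L * m) with ha
  set A : ℕ → Lp ℝ 2 ν := fun m => ((L : ℝ) * m)⁻¹ • ∑ i ∈ Finset.range L,
      ∑ k ∈ Finset.range m, e (i * (m * L + 1) + k * L) with hA
  have haA : ∀ m, (A m : X → ℝ) =ᵐ[ν] a m := by
    intro m
    have h1 : ∀ n, (e n : X → ℝ) =ᵐ[ν] fun x => s.indicator (fun _ => (1 : ℝ)) (F^[n] x) := by
      intro n
      exact indicatorConstLp_coeFn.trans (Eventually.of_forall fun x => rfl)
    have h2 : ∀ᵐ x ∂ν, ∀ n, (e n : X → ℝ) x = s.indicator (fun _ => (1 : ℝ)) (F^[n] x) :=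
      ae_all_iff.2 h1
    have h3 := Lp.coeFn_smul (((L : ℝ) * m)⁻¹) (∑ i ∈ Finset.range L,
      ∑ k ∈ Finset.range m, e (i * (m * L + 1) + k * L))
    have h4 := Lp.coeFn_finsetSum (Finset.range L) (fun i =>
      ∑ k ∈ Finset.range m, e (i * (m * L + 1) + k * L))
    have h5 : ∀ᵐ x ∂ν, ∀ i : ℕ, (((∑ k ∈ Finset.range m, e (i * (m * L + 1) + k * L) :
        Lp ℝ 2 ν) : X → ℝ)) x =
        (∑ k ∈ Finset.range m, (e (i * (m * L + 1) + k * L) : X → ℝ)) x :=
      ae_all_iff.2 fun i => Lp.coeFn_finsetSum (Finset.range m)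
        (fun k => e (i * (m * L + 1) + k * L))
    filter_upwards [h2, h3, h4, h5] with x hx2 hx3 hx4 hx5
    rw [hA, ha]
    simp only
    rw [hx3, Pi.smul_apply, hx4, Finset.sum_apply, smul_eq_mul, div_eq_inv_mul]
    congr 1
    refine Finset.sum_congr rfl fun i _ => ?_
    rw [hx5 i, Finset.sum_apply]
    exact Finset.sum_congr rfl fun k _ => hx2 _
  have hint : ∀ n, Integrable (fun x => s.indicator (fun _ => (1 : ℝ)) (F^[n] x)) ν := by
    intro n
    have : (fun x => s.indicator (fun _ => (1 : ℝ)) (F^[n] x)) =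
        (F^[n] ⁻¹' s).indicator (fun _ => (1 : ℝ)) := rfl
    rw [this]
    exact (integrable_const _).indicator (hmeas n)
  have hinta : ∀ m, Integrable (a m) ν := fun m =>
    (integrable_finsetSum _ fun i _ => integrable_finsetSum _ fun k _ => hint _).div_const _
  -- L1 convergence
  have hL1 : Tendsto (fun m => ∫ x, |a m x - c| ∂ν) atTop (𝓝 0) := by
    have h1 : Tendsto (fun m => ‖A m - h‖) atTop (𝓝 0) :=
      tendsto_iff_norm_sub_tendsto_zero.1 hlim
    refine squeeze_zero (fun m => integral_nonneg fun x => abs_nonneg _) (fun m => ?_) h1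
    have h2 : (fun x => ‖(A m - h : Lp ℝ 2 ν) x‖) =ᵐ[ν] fun x => |a m x - c| := by
      filter_upwards [Lp.coeFn_sub (A m) h, haA m, hc] with x hx1 hx2 hx3
      rw [hx1, Pi.sub_apply, hx2, hx3, Real.norm_eq_abs]
    rw [← integral_congr_ae h2]
    have h3 : MemLp (A m - h : Lp ℝ 2 ν) 2 ν := Lp.memLp _
    have h4 := eLpNorm_le_eLpNorm_of_exponent_le (p := 1) (q := 2) (by norm_num)
      h3.aestronglyMeasurable
    rw [integral_norm_eq_lintegral_enorm h3.aestronglyMeasurable, ← eLpNorm_one_eq_lintegral_enorm,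
      Lp.norm_def]
    exact ENNReal.toReal_mono h3.eLpNorm_ne_top h4
  -- the constant
  have hcs : c = (ν s).toReal := by
    have h1 : Tendsto (fun m => ∫ x, a m x ∂ν) atTop (𝓝 c) := by
      rw [tendsto_iff_norm_sub_tendsto_zero]
      refine squeeze_zero (fun _ => norm_nonneg _) (fun m => ?_) hL1
      have h2 : ∫ x, a m x ∂ν - c = ∫ x, (a m x - c) ∂ν := by
        rw [integral_sub (hinta m) (integrable_const _), integral_const]
        simp
      rw [h2]
      exact norm_integral_le_integral_norm _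
    have h2 : ∀ m : ℕ, 1 ≤ m → ∫ x, a m x ∂ν = (ν s).toReal := by
      intro m hm
      have h3 : ∀ n, ∫ x, s.indicator (fun _ => (1 : ℝ)) (F^[n] x) ∂ν = (ν s).toReal := by
        intro n
        have : (fun x => s.indicator (fun _ => (1 : ℝ)) (F^[n] x)) =
          (F^[n] ⁻¹' s).indicator (fun _ => (1 : ℝ)) := rfl
        rw [this, integral_indicator (hmeas n), setIntegral_const]
        have h5 := (hmp.iterate n).measure_preimage hs.nullMeasurableSet
        simp [Measure.real, h5]
      rw [ha]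
      simp only
      rw [integral_div, integral_finsetSum _ fun i _ =>
        integrable_finsetSum _ fun k _ => hint _]
      simp_rw [integral_finsetSum _ fun k _ => hint _, h3]
      simp only [Finset.sum_const, Finset.card_range, nsmul_eq_mul]
      have hL' : (L : ℝ) ≠ 0 := by exact_mod_cast hL.ne'
      have hm' : (m : ℝ) ≠ 0 := by exact_mod_cast (by omega : m ≠ 0)
      field_simp
    refine tendsto_nhds_unique h1 ?_
    refine tendsto_const_nhds.congr' ?_
    filter_upwards [eventually_ge_atTop 1] with m hm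
    exact (h2 m hm).symm
  rw [← hcs]
  exact hL1

end Pool.Agent.Helper23.Weiss
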