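import Pool.Agent.Helper23.Weiss.Key

/-!
Separated sets from clean names; cutting names into blocks.
-/

set_option autoImplicit false

namespace Pool.Agent.Helper23.Weiss

open Filter Topology

variable {X : Type*} {F : X → X} {J : Type*} [Fintype J] [DecidableEq J] {g : J → X → ℝ}

theorem mem_NS {β τ : ℝ} {T : ℕ} {r : ℝ} {ν : Fin T × J → Bool} :
    ν ∈ NS F g β τ T r ↔ ∃ x, nm F g β T x = ν ∧ (vis F g β τ T x : ℝ) ≤ r := by
  unfold NS
  simp

/-- Clean names give separated sets. -/
theorem sep_lower [Nonempty X] {β τ : ℝ} (hτ : 0 ≤ τ) (T : ℕ) (r : ℝ) {z : ℝ} (hz : 0 < z)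
    (hz1 : z ≤ 1) : ((NS F g β τ T r).card : ℝ) ≤
      sepR F (Rel g β τ) T * Real.exp (z * (T * Fintype.card J) + 2 * r * Real.log (1 / z)) := by
  classical
  set N := NS F g β τ T r with hN
  have hrep : ∀ ν : Fin T × J → Bool, ∃ x, ν ∈ N → nm F g β T x = ν ∧
      (vis F g β τ T x : ℝ) ≤ r := by
    intro ν
    by_cases h : ν ∈ N
    · obtain ⟨x, h1⟩ := mem_NS.1 h
      exact ⟨x, fun _ => h1⟩
    · exact ⟨Classical.arbitrary X, fun h' => absurd h' h⟩
  choose rep hrep using hrep
  set conf : (Fin T × J → Bool) → (Fin T × J → Bool) → Prop :=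
    fun ν μ => ∀ t < T, Rel g β τ (F^[t] (rep ν)) (F^[t] (rep μ)) with hconf
  obtain ⟨S, hSN, hS, hcard⟩ := greedy N conf (fun a b h t ht => (h t ht).symm)
    (fun a t _ => Rel.refl hτ _)
    (V := Real.exp (z * (T * Fintype.card J) + 2 * r * Real.log (1 / z))) (by
      intro ν hν
      have hsub : N.filter (fun μ => conf ν μ) ⊆
          Finset.univ.filter (fun μ : Fin T × J → Bool => (hammingDist ν μ : ℝ) ≤ 2 * r) := by
        intro μ hμ
        obtain ⟨h1, h2⟩ := Finset.mem_filter.1 hμ
        rw [Finset.mem_filter]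
        refine ⟨Finset.mem_univ _, ?_⟩
        have h3 := hamming_of_rel (F := F) (g := g) h2
        rw [(hrep ν hν).1, (hrep μ h1).1] at h3
        have h4 : (hammingDist ν μ : ℝ) ≤ (vis F g β τ T (rep ν) : ℝ) +
            (vis F g β τ T (rep μ) : ℝ) := by exact_mod_cast h3
        linarith [(hrep ν hν).2, (hrep μ h1).2]
      have h1 : ((N.filter (fun μ => conf ν μ)).card : ℝ) ≤
          ((Finset.univ.filter (fun μ : Fin T × J → Bool =>
            (hammingDist ν μ : ℝ) ≤ 2 * r)).card : ℝ) := by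
        exact_mod_cast Finset.card_le_card hsub
      have h2 := hamming_ball ν hz hz1 (2 * r)
      have h3 : (Fintype.card (Fin T × J) : ℝ) = T * Fintype.card J := by
        rw [Fintype.card_prod, Fintype.card_fin]
        push_cast
        ring
      rw [h3] at h2
      refine le_trans (le_of_eq ?_) (h1.trans (le_trans (le_of_eq ?_) h2))
      · congr!
      · congr!)
  have hinj : Set.InjOn rep S := by
    intro a ha b hb hab
    rw [← (hrep a (hSN ha)).1, ← (hrep b (hSN hb)).1, hab]
  have hE : SepSet F (Rel g β τ) T (S.image rep) := by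
    intro x hx y hy hxy
    obtain ⟨a, ha, rfl⟩ := Finset.mem_image.1 hx
    obtain ⟨b, hb, rfl⟩ := Finset.mem_image.1 hy
    have hab : a ≠ b := fun h => hxy (by rw [h])
    have := hS a ha b hb hab
    rw [hconf] at this
    push Not at this
    exact this
  have h1 := le_sepR (col_rel hτ T) hE
  rw [Finset.card_image_of_injOn hinj] at h1
  refine hcard.trans ?_
  apply mul_le_mul_of_nonneg_right _ (Real.exp_pos _).le
  exact_mod_cast h1

/-- Cutting a name into blocks. -/
def blk {q T : ℕ} (ν : Fin (q * T) × J → Bool) : Fin q → (Fin T × J → Bool) :=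
  fun k p => ν (finProdFinEquiv (k, p.1), p.2)

omit [Fintype J] [DecidableEq J] in
theorem blk_injective {q T : ℕ} : Function.Injective (blk (J := J) (q := q) (T := T)) := by
  intro ν μ h
  funext p
  obtain ⟨s, j⟩ := p
  obtain ⟨⟨k, t⟩, rfl⟩ := finProdFinEquiv.surjective s
  exact congrFun (congrFun h k) (t, j)

omit [Fintype J] [DecidableEq J] in
theorem blk_nm {β : ℝ} {q T : ℕ} (x : X) (k : Fin q) :
    blk (nm F g β (q * T) x) k = nm F g β T (F^[T * k] x) := by
  funext p
  unfold blk nm
  rw [← Function.iterate_add_apply]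
  rfl

omit [DecidableEq J] in
theorem vis_blocks {β τ : ℝ} {q T : ℕ} (x : X) :
    vis F g β τ (q * T) x = ∑ k : Fin q, vis F g β τ T (F^[T * k] x) := by
  classical
  unfold vis
  rw [Fintype.sum_prod_type, ← finProdFinEquiv.sum_comp, Fintype.sum_prod_type]
  apply Finset.sum_congr rfl
  intro k _
  rw [Fintype.sum_prod_type]
  apply Finset.sum_congr rfl
  intro t _
  apply Finset.sum_congr rfl
  intro j _
  rw [← Function.iterate_add_apply]
  rfl

/-- The block bound. -/
theorem block_bound {β τ : ℝ} {q T : ℕ} (hT : 0 < T) {ρ θ : ℝ} (hρ : 0 < ρ) (hθ : θ ≤ ρ ^ 2) :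
    ((NS F g β τ (q * T) (θ * (q * T))).card : ℝ) ≤
      2 ^ q * ((max 1 (NS F g β τ T (ρ * T)).card : ℕ) : ℝ) ^ q *
        Real.exp (Real.log 2 * (T * Fintype.card J) * (ρ * q)) := by
  classical
  set N := NS F g β τ T (ρ * T) with hN
  set 𝓑 : Finset (Finset (Fin q)) := Finset.univ.filter (fun B => (B.card : ℝ) ≤ ρ * q) with h𝓑
  have hT' : (0 : ℝ) < T := by exact_mod_cast hT
  have hsub : (NS F g β τ (q * T) (θ * (q * T))).image blk ⊆ 𝓑.biUnion (fun B =>
      Fintype.piFinset (fun k => if k ∈ B then Finset.univ else N)) := by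
    intro w hw
    obtain ⟨ν, hν, rfl⟩ := Finset.mem_image.1 hw
    obtain ⟨x, rfl, hx⟩ := mem_NS.1 hν
    rw [Finset.mem_biUnion]
    refine ⟨Finset.univ.filter (fun k => ρ * T < (vis F g β τ T (F^[T * k] x) : ℝ)), ?_, ?_⟩
    · rw [h𝓑, Finset.mem_filter]
      refine ⟨Finset.mem_univ _, ?_⟩
      set B := Finset.univ.filter (fun k : Fin q => ρ * T < (vis F g β τ T (F^[T * k] x) : ℝ))
        with hB
      have h1 : (B.card : ℝ) * (ρ * T) ≤ θ * (q * T) := by
        calc (B.card : ℝ) * (ρ * T) = ∑ k ∈ B, (ρ * T) := by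
              rw [Finset.sum_const, nsmul_eq_mul]
          _ ≤ ∑ k ∈ B, (vis F g β τ T (F^[T * k] x) : ℝ) :=
              Finset.sum_le_sum fun k hk => (Finset.mem_filter.1 hk).2.le
          _ ≤ ∑ k : Fin q, (vis F g β τ T (F^[T * k] x) : ℝ) :=
              Finset.sum_le_univ_sum_of_nonneg fun k => Nat.cast_nonneg _
          _ = (vis F g β τ (q * T) x : ℝ) := by
              rw [vis_blocks]
              push_cast
              rfl
          _ ≤ _ := hx
      have h2 : θ * (q * T) ≤ ρ ^ 2 * (q * T) :=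
        mul_le_mul_of_nonneg_right hθ (by positivity)
      have h3 : (B.card : ℝ) * (ρ * T) ≤ (ρ * q) * (ρ * T) := by nlinarith
      exact le_of_mul_le_mul_right h3 (by positivity)
    · rw [Fintype.mem_piFinset]
      intro k
      split_ifs with hk
      · exact Finset.mem_univ _
      · rw [Finset.mem_filter] at hk
        push Not at hk
        rw [blk_nm]
        exact mem_NS.2 ⟨_, rfl, hk (Finset.mem_univ _)⟩
  have h1 : (NS F g β τ (q * T) (θ * (q * T))).card ≤ ∑ B ∈ 𝓑,
      (Fintype.piFinset (fun k : Fin q => if k ∈ B then (Finset.univ : Finset (Fin T × J → Bool))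
        else N)).card := by
    rw [← Finset.card_image_of_injective _ (blk_injective (J := J) (q := q) (T := T))]
    exact (Finset.card_le_card hsub).trans Finset.card_biUnion_le
  have h2 : ∀ B ∈ 𝓑, ((Fintype.piFinset (fun k : Fin q => if k ∈ B then
      (Finset.univ : Finset (Fin T × J → Bool)) else N)).card : ℝ) ≤
      ((max 1 N.card : ℕ) : ℝ) ^ q * Real.exp (Real.log 2 * (T * Fintype.card J) * (ρ * q)) := by
    intro B hB
    have hBq := (Finset.mem_filter.1 hB).2
    rw [Fintype.card_piFinset]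
    have h3 : ∀ k : Fin q, ((if k ∈ B then (Finset.univ : Finset (Fin T × J → Bool))
        else N).card : ℝ) ≤ ((max 1 N.card : ℕ) : ℝ) *
          (if k ∈ B then (2 : ℝ) ^ (T * Fintype.card J) else 1) := by
      intro k
      have h4 : (1 : ℝ) ≤ ((max 1 N.card : ℕ) : ℝ) := by exact_mod_cast le_max_left 1 N.card
      have h5 : (N.card : ℝ) ≤ ((max 1 N.card : ℕ) : ℝ) := by exact_mod_cast le_max_right 1 N.card
      split_ifs with hk
      · rw [Finset.card_univ, card_names]
        push_cast
        have : (0 : ℝ) < 2 ^ (T * Fintype.card J) := by positivity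
        push_cast at h4
        nlinarith
      · linarith
    have h6 : ((∏ k : Fin q, (if k ∈ B then (Finset.univ : Finset (Fin T × J → Bool))
        else N).card : ℕ) : ℝ) ≤ ∏ k : Fin q, (((max 1 N.card : ℕ) : ℝ) *
          (if k ∈ B then (2 : ℝ) ^ (T * Fintype.card J) else 1)) := by
      rw [Nat.cast_prod]
      exact Finset.prod_le_prod (fun k _ => Nat.cast_nonneg _) (fun k _ => h3 k)
    refine h6.trans ?_
    rw [Finset.prod_mul_distrib, Finset.prod_const, Finset.card_univ, Fintype.card_fin,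
      Finset.prod_ite, Finset.prod_const, Finset.prod_const_one, mul_one]
    apply mul_le_mul_of_nonneg_left _ (by positivity)
    have h7 : (Finset.univ.filter (fun k => k ∈ B)).card = B.card := by
      congr 1
      ext k
      simp
    rw [h7, ← pow_mul, ← Real.exp_log (by norm_num : (0 : ℝ) < 2), ← Real.exp_nat_mul,
      Real.exp_log (by norm_num : (0 : ℝ) < 2), Real.exp_le_exp]
    push_cast
    have hlog : 0 ≤ Real.log 2 := Real.log_nonneg (by norm_num)
    have h8 : 0 ≤ Real.log 2 * (T * Fintype.card J) := by positivity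
    nlinarith [mul_le_mul_of_nonneg_left hBq h8]
  have h3 : ((NS F g β τ (q * T) (θ * (q * T))).card : ℝ) ≤ ∑ B ∈ 𝓑,
      (((max 1 N.card : ℕ) : ℝ) ^ q *
        Real.exp (Real.log 2 * (T * Fintype.card J) * (ρ * q))) := by
    refine (Nat.cast_le.2 h1).trans ?_
    rw [Nat.cast_sum]
    exact Finset.sum_le_sum (fun B hB => h2 B hB)
  refine h3.trans ?_
  rw [Finset.sum_const, nsmul_eq_mul, mul_assoc ((2 : ℝ) ^ q)]
  apply mul_le_mul_of_nonneg_right _ (by positivity)
  have h4 : 𝓑.card ≤ 2 ^ q := by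
    calc 𝓑.card ≤ (Finset.univ : Finset (Finset (Fin q))).card := Finset.card_filter_le _ _
      _ = 2 ^ q := by rw [Finset.card_univ, Fintype.card_finset, Fintype.card_fin]
  exact_mod_cast h4

end Pool.Agent.Helper23.Weiss
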