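import Mathlib

/-!
# Separation and covering numbers of a dynamical system with respect to a metric
-/

set_option autoImplicit false

namespace Pool.Agent.Helper23.Weiss

/-- `D` is a metric on `X` that induces the given topology. -/
def IsEquivMetric {X : Type*} [TopologicalSpace X] (D : X → X → ℝ) : Prop :=
  (∀ x y, D x y = 0 ↔ x = y) ∧ (∀ x y, D x y = D y x) ∧ (∀ x y z, D x z ≤ D x y + D y z) ∧
    ∀ s : Set X, IsOpen s ↔ ∀ x ∈ s, ∃ ε > 0, ∀ y, D x y < ε → y ∈ s

/-- The largest cardinality of an `(ε, D_T)`-separated set: `D_T(x, y) > ε` for distinct `x`, `y`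
in it, where `D_T(x, y) = max_{t < T} D(F^t x, F^t y)`. -/
noncomputable def sep {X : Type*} (F : X → X) (D : X → X → ℝ) (ε : ℝ) (T : ℕ) : ℕ :=
  sSup {n | ∃ E : Finset X, E.card = n ∧
    ∀ x ∈ E, ∀ y ∈ E, x ≠ y → ∃ t < T, ε < D (F^[t] x) (F^[t] y)}

/-- The smallest number of classes of a partition of `X` into sets of `D_T`-diameter at most `ε`
(some of the classes may be empty). -/
noncomputable def cov {X : Type*} (F : X → X) (D : X → X → ℝ) (ε : ℝ) (T : ℕ) : ℕ :=
  sInf {n | ∃ φ : X → Fin n, ∀ x y, φ x = φ y → ∀ t < T, D (F^[t] x) (F^[t] y) ≤ ε}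

end Pool.Agent.Helper23.Weiss
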