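import Pool.Agent.Helper23.Weiss.Glue

/-!
One metric with almost convergent separation rates.
-/

set_option autoImplicit false

namespace Pool.Agent.Helper23.Weiss

open Filter Topology

variable {X : Type*} [MetricSpace X]

/-- A tower of windows. -/
theorem exists_tower [CompactSpace X] [Nonempty X] (F : X → X) (κ : ℕ → ℝ) (hκ : ∀ k, 0 < κ k) :
    ∃ (f : ℕ → X → X → ℝ) (δ η : ℕ → ℝ), IsTower f δ η ∧ ∀ k, IsWindow F (δ k) (κ k) (f k) := by
  classical
  choose f hf using fun (p : {d : ℝ // 0 < d} × ℕ) => exists_window F p.1.2 (hκ p.2)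
  choose K hK using fun p => (hf p).lip
  choose η hη0 hη using fun p => (hf p).near
  set step : ℕ → {d : ℝ // 0 < d} × ℝ → {d : ℝ // 0 < d} × ℝ := fun k s =>
    (⟨min (η (s.1, k) / 2) ((1 / 2) ^ (k + 2) / max (max s.2 (K (s.1, k))) 1),
      lt_min (half_pos (hη0 _)) (div_pos (by positivity) (lt_max_of_lt_right one_pos))⟩,
      max (max s.2 (K (s.1, k))) 1) with hstep
  set st : ℕ → {d : ℝ // 0 < d} × ℝ := fun n => Nat.rec (⟨1, one_pos⟩, 1) (fun k s => step k s) n
    with hst
  have hst_succ : ∀ k, st (k + 1) = step k (st k) := fun k => rfl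
  set δ : ℕ → ℝ := fun k => (st k).1 with hδ
  set A : ℕ → ℝ := fun k => (st k).2 with hA
  have hA1 : ∀ k, 1 ≤ A (k + 1) := by
    intro k
    simp only [hA, hst_succ, hstep]
    exact le_max_right _ _
  have hAK : ∀ k, K ((st k).1, k) ≤ A (k + 1) := by
    intro k
    simp only [hA, hst_succ, hstep]
    exact (le_max_right _ _).trans (le_max_left _ _)
  have hAmono : ∀ k, A k ≤ A (k + 1) := by
    intro k
    simp only [hA, hst_succ, hstep]
    exact (le_max_left _ _).trans (le_max_left _ _)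
  have hAmono' : Monotone A := monotone_nat_of_le_succ hAmono
  have hδη : ∀ k, δ (k + 1) ≤ η ((st k).1, k) / 2 := by
    intro k
    simp only [hδ, hst_succ, hstep]
    exact min_le_left _ _
  have hδA : ∀ k, A (k + 1) * δ (k + 1) ≤ (1 / 2) ^ (k + 2) := by
    intro k
    have h1 : δ (k + 1) ≤ (1 / 2) ^ (k + 2) / A (k + 1) := by
      simp only [hδ, hA, hst_succ, hstep]
      exact min_le_right _ _
    have h2 : 0 < A (k + 1) := lt_of_lt_of_le one_pos (hA1 k)
    rw [le_div_iff₀ h2] at h1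
    linarith
  have hδpos : ∀ k, 0 < δ k := fun k => (st k).1.2
  refine ⟨fun k => f ((st k).1, k), δ, fun k => η ((st k).1, k), ?_, fun k => hf ((st k).1, k)⟩
  refine ⟨fun k => (hf _).nonneg, fun k => (hf _).le_one, fun k => (hf _).symm,
    fun k => (hf ((st k).1, k)).far, fun k => hη _, fun k => hη0 _, ?_, ?_, ?_⟩
  · intro k
    have := hδη k
    linarith
  · intro k
    have h1 := hδA k
    have h2 := hA1 k
    have h3 := hδpos (k + 1)
    nlinarith
  · intro k j hj x y z hyz
    have h1 := hK ((st j).1, j) x y z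
    have h2 : K ((st j).1, j) ≤ A (k + 1) := (hAK j).trans (hAmono' (Nat.succ_le_succ hj))
    have h3 : K ((st j).1, j) * dist y z ≤ (1 / 2) ^ (k + 2) := by
      calc _ ≤ A (k + 1) * dist y z := mul_le_mul_of_nonneg_right h2 dist_nonneg
        _ ≤ A (k + 1) * δ (k + 1) :=
            mul_le_mul_of_nonneg_left hyz.le (zero_le_one.trans (hA1 k))
        _ ≤ _ := hδA k
    linarith

omit [MetricSpace X] in
theorem sep_eq (F : X → X) (D : X → X → ℝ) (ε : ℝ) (T : ℕ) :
    sep F D ε T = sepR F (fun x y => D x y ≤ ε) T := by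
  unfold sep sepR SepSet
  simp only [not_le]

omit [MetricSpace X] in
theorem cov_eq (F : X → X) (D : X → X → ℝ) (ε : ℝ) (T : ℕ) :
    cov F D ε T = covR F (fun x y => D x y ≤ ε) T := rfl

theorem main [CompactSpace X] (F : X → X) (κ : ℝ → ℝ) (hκ : ∀ ε, 0 < ε → 0 < κ ε)
    (hmono : MonotoneOn κ (Set.Ioi 0)) :
    ∃ D : X → X → ℝ, IsEquivMetric D ∧ ∀ ε, 0 < ε → ∃ c : ℝ,
      Tendsto (fun T : ℕ => Real.log (cov F D ε T) / T) atTop (𝓝 c) ∧
      (∀ᶠ T : ℕ in atTop, c - κ ε ≤ Real.log (sep F D ε T) / T) ∧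
      ∀ T : ℕ, sep F D ε T ≤ cov F D ε T := by
  rcases isEmpty_or_nonempty X with hX | hX
  · refine ⟨fun _ _ => 0, ⟨fun x => (hX.false x).elim, fun x => (hX.false x).elim,
      fun x => (hX.false x).elim, fun s => ⟨fun _ x => (hX.false x).elim, fun _ => ?_⟩⟩, ?_⟩
    · rw [Set.eq_empty_of_isEmpty s]
      exact isOpen_empty
    · intro ε hε
      have hcov0 : ∀ T, cov F (fun _ _ => (0 : ℝ)) ε T = 0 := by
        intro T
        apply Nat.sInf_eq_zero.2
        left
        exact ⟨fun x => (hX.false x).elim, fun x => (hX.false x).elim⟩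
      have hsep0 : ∀ T, sep F (fun _ _ => (0 : ℝ)) ε T = 0 := by
        intro T
        apply Nat.eq_zero_of_le_zero
        unfold sep
        apply csSup_le
        · exact ⟨0, ∅, rfl, fun x hx => by simp at hx⟩
        rintro n ⟨E, rfl, _⟩
        rw [Finset.eq_empty_of_isEmpty E]
        simp
      refine ⟨0, ?_, ?_, ?_⟩
      · simp only [hcov0, Nat.cast_zero, Real.log_zero, zero_div]
        exact tendsto_const_nhds
      · filter_upwards with T
        simp only [hsep0, Nat.cast_zero, Real.log_zero, zero_div]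
        linarith [hκ ε hε]
      · intro T
        rw [hsep0, hcov0]
  obtain ⟨f, δ, η, htower, hwin⟩ := exists_tower F (fun k => κ ((1 / 2) ^ (k + 1)))
    (fun k => hκ _ (by positivity))
  refine ⟨glue f, htower.isEquivMetric, ?_⟩
  intro ε hε
  simp only [sep_eq, cov_eq]
  rcases lt_or_ge ε 1 with hε1 | hε1
  · -- the level of `ε`
    classical
    have hex : ∃ k : ℕ, (1 / 2 : ℝ) ^ (k + 1) ≤ ε := by
      obtain ⟨n, hn⟩ := exists_pow_lt_of_lt_one hε (by norm_num : (1 / 2 : ℝ) < 1)
      refine ⟨n, le_trans (pow_le_pow_of_le_one (by norm_num) (by norm_num) (by omega)) hn.le⟩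
    obtain ⟨k, hk1, hk2⟩ : ∃ k : ℕ, (1 / 2 : ℝ) ^ (k + 1) ≤ ε ∧ ε < (1 / 2) ^ k := by
      refine ⟨Nat.find hex, Nat.find_spec hex, ?_⟩
      rcases Nat.eq_zero_or_pos (Nat.find hex) with h | h
      · rw [h]
        simpa using hε1
      · have := Nat.find_min hex (Nat.sub_lt h one_pos)
        rw [show Nat.find hex - 1 + 1 = Nat.find hex by omega] at this
        exact not_le.1 this
    have hw : (0 : ℝ) < (1 / 2) ^ k := by positivity
    set s : ℝ := 2 * ε / (1 / 2) ^ k - 1 with hs
    have hs0 : 0 ≤ s := by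
      rw [hs, sub_nonneg, le_div_iff₀ hw]
      rw [pow_succ] at hk1
      linarith
    have hs1 : s < 1 := by
      rw [hs, sub_lt_iff_lt_add, div_lt_iff₀ hw]
      linarith
    have hεs : ε = (1 / 2) ^ k * (1 + s) / 2 := by
      rw [hs]
      field_simp
      ring
    have hrel : (fun x y : X => glue f x y ≤ ε) = fun x y => f k x y ≤ s := by
      funext x y
      apply propext
      rw [hεs]
      exact htower.glue_le_iff hs0 hs1 x y
    rw [hrel]
    obtain ⟨c, hc1, hc2⟩ := (hwin k).rate s hs0 hs1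
    obtain ⟨n, hn⟩ := (hwin k).col s hs0
    refine ⟨c, hc1, ?_, fun T => sepR_le_covR (hn.all T)⟩
    have hle : κ ((1 / 2) ^ (k + 1)) ≤ κ ε :=
      hmono (Set.mem_Ioi.2 (by positivity)) (Set.mem_Ioi.2 hε) hk1
    filter_upwards [hc2] with T hT
    linarith
  · have hcol : ∀ T, Col F (fun x y : X => glue f x y ≤ ε) T 1 := fun T =>
      ⟨fun _ => 0, fun x y _ t _ => (htower.glue_le_one _ _).trans hε1⟩
    have hcov1 : ∀ T, covR F (fun x y : X => glue f x y ≤ ε) T = 1 := fun T =>
      le_antisymm (covR_le (hcol T)) (covR_pos (hcol T))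
    refine ⟨0, ?_, ?_, fun T => sepR_le_covR (hcol T)⟩
    · simp only [hcov1, Nat.cast_one, Real.log_one, zero_div]
      exact tendsto_const_nhds
    · filter_upwards with T
      have h1 : (1 : ℝ) ≤ sepR F (fun x y : X => glue f x y ≤ ε) T := by
        exact_mod_cast sepR_pos (hcol T)
      have h2 : 0 ≤ Real.log (sepR F (fun x y : X => glue f x y ≤ ε) T) / T :=
        div_nonneg (Real.log_nonneg h1) (Nat.cast_nonneg _)
      linarith [hκ ε hε]

end Pool.Agent.Helper23.Weiss
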