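import Pool.Agent.Helper23.Weiss.Lower

/-!
Good windows below every scale.
-/

set_option autoImplicit false

namespace Pool.Agent.Helper23.Weiss

open Filter Topology

variable {X : Type*} [MetricSpace X]

/-- A good window at scale `δ`. -/
structure IsWindow (F : X → X) (δ κ : ℝ) (f : X → X → ℝ) : Prop where
  nonneg : ∀ x y, 0 ≤ f x y
  le_one : ∀ x y, f x y ≤ 1
  symm : ∀ x y, f x y = f y x
  lip : ∃ K : ℝ, ∀ x y z, f x z ≤ f x y + K * dist y z
  near : ∃ η > 0, ∀ x y, dist x y < η → f x y = 0
  far : ∀ x y, δ ≤ dist x y → f x y = 1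
  col : ∀ s, 0 ≤ s → ∃ n, Col F (fun x y => f x y ≤ s) 1 n
  rate : ∀ s, 0 ≤ s → s < 1 → ∃ c : ℝ,
    Tendsto (fun T : ℕ => Real.log (covR F (fun x y => f x y ≤ s) T) / T) atTop (𝓝 c) ∧
      ∀ᶠ T : ℕ in atTop, c - κ ≤ Real.log (sepR F (fun x y => f x y ≤ s) T) / T

section H

variable {J : Type*} [Fintype J] [Nonempty J] {g : J → X → ℝ}

/-- The half-width of the largest zone around `β` separating `x` and `y`. -/
noncomputable def width (g : J → X → ℝ) (β : ℝ) (x y : X) : ℝ :=
  Finset.univ.sup' Finset.univ_nonempty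
    (fun j => max (min (β - g j x) (g j y - β)) (min (β - g j y) (g j x - β)))

omit [MetricSpace X] in
theorem width_le_iff {β t : ℝ} {x y : X} : width g β x y ≤ t ↔ Rel g β t x y := by
  unfold width Rel
  rw [Finset.sup'_le_iff]
  constructor
  · intro h j
    have h1 := h j (Finset.mem_univ j)
    rw [max_le_iff, min_le_iff, min_le_iff] at h1
    constructor
    · rintro ⟨h2, h3⟩
      rcases h1.1 with h4 | h4 <;> linarith
    · rintro ⟨h2, h3⟩
      rcases h1.2 with h4 | h4 <;> linarith
  · intro h j _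
    obtain ⟨h1, h2⟩ := h j
    rw [max_le_iff, min_le_iff, min_le_iff]
    constructor
    · by_contra hcon
      push Not at hcon
      exact h1 ⟨by linarith [hcon.1], by linarith [hcon.2]⟩
    · by_contra hcon
      push Not at hcon
      exact h2 ⟨by linarith [hcon.1], by linarith [hcon.2]⟩

omit [MetricSpace X] in
theorem width_symm {β : ℝ} (x y : X) : width g β x y = width g β y x := by
  unfold width
  congr 1
  funext j
  exact max_comm _ _

theorem width_lip {β K : ℝ} (hg : ∀ j x y, |g j x - g j y| ≤ K * dist x y) (x y z : X) :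
    width g β x z ≤ width g β x y + K * dist y z := by
  unfold width
  rw [Finset.sup'_le_iff]
  intro j hj
  have h1 : max (min (β - g j x) (g j y - β)) (min (β - g j y) (g j x - β)) ≤
      Finset.univ.sup' Finset.univ_nonempty
        (fun j => max (min (β - g j x) (g j y - β)) (min (β - g j y) (g j x - β))) :=
    Finset.le_sup' (fun j => max (min (β - g j x) (g j y - β)) (min (β - g j y) (g j x - β))) hj
  refine le_trans ?_ (add_le_add_left h1 _)
  have h2 := abs_le.1 (hg j y z)
  apply max_le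
  · have h3 : min (β - g j x) (g j z - β) ≤ min (β - g j x) (g j y - β) + K * dist y z := by
      rcases le_total (β - g j x) (g j y - β) with h | h
      · rw [min_eq_left h]
        have := min_le_left (β - g j x) (g j z - β)
        have h0 : 0 ≤ K * dist y z := le_trans (abs_nonneg _) (hg j y z)
        linarith
      · rw [min_eq_right h]
        have := min_le_right (β - g j x) (g j z - β)
        linarith
    exact h3.trans (add_le_add_left (le_max_left _ _) _)
  · have h3 : min (β - g j z) (g j x - β) ≤ min (β - g j y) (g j x - β) + K * dist y z := by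
      rcases le_total (β - g j y) (g j x - β) with h | h
      · rw [min_eq_left h]
        have := min_le_left (β - g j z) (g j x - β)
        linarith
      · rw [min_eq_right h]
        have := min_le_right (β - g j z) (g j x - β)
        have h0 : 0 ≤ K * dist y z := le_trans (abs_nonneg _) (hg j y z)
        linarith
    exact h3.trans (add_le_add_left (le_max_right _ _) _)

end H

theorem clamp_lip (a b : ℝ) : |max 0 (min 1 a) - max 0 (min 1 b)| ≤ |a - b| := by
  have h1 := le_abs_self (a - b)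
  have h2 := neg_abs_le (a - b)
  have h3 := abs_nonneg (a - b)
  rw [abs_le]
  constructor <;> simp only [max_def, min_def] <;> split_ifs <;> linarith

/-- Choice of a small density. -/
theorem exists_rho (m : ℕ) {κ : ℝ} (hκ : 0 < κ) : ∃ ρ : ℝ, 0 < ρ ∧ ρ ≤ 1 ∧
    Real.log 2 * m * ρ + m * ρ + 2 * ρ * Real.log (1 / ρ) ≤ κ := by
  set σ : ℝ := min 1 (κ / (2 * m + 4)) with hσ
  have hm : (0 : ℝ) ≤ m := Nat.cast_nonneg m
  have hσ0 : 0 < σ := lt_min one_pos (by positivity)
  have hσ1 : σ ≤ 1 := min_le_left _ _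
  have hσκ : σ * (2 * m + 4) ≤ κ := by
    have := min_le_right 1 (κ / (2 * (m : ℝ) + 4))
    rw [← hσ, le_div_iff₀ (by positivity)] at this
    exact this
  refine ⟨σ ^ 2, by positivity, by nlinarith, ?_⟩
  have h1 : Real.log (1 / σ ^ 2) ≤ 2 * (1 / σ) := by
    have h2 : (1 : ℝ) / σ ^ 2 = (1 / σ) ^ 2 := by rw [div_pow, one_pow]
    rw [h2, Real.log_pow]
    push_cast
    have h3 := Real.log_le_sub_one_of_pos (by positivity : 0 < 1 / σ)
    linarith
  have h4 : 2 * σ ^ 2 * Real.log (1 / σ ^ 2) ≤ 4 * σ := by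
    calc _ ≤ 2 * σ ^ 2 * (2 * (1 / σ)) := mul_le_mul_of_nonneg_left h1 (by positivity)
      _ = 4 * σ := by field_simp; norm_num
  have hlog2 : Real.log 2 ≤ 1 := by
    have := Real.log_le_sub_one_of_pos (by norm_num : (0 : ℝ) < 2)
    linarith
  have h5 : σ ^ 2 ≤ σ := by nlinarith
  have h6 : Real.log 2 * m * σ ^ 2 ≤ m * σ := by
    calc _ ≤ 1 * m * σ := by gcongr
      _ = _ := by ring
  nlinarith [mul_le_mul_of_nonneg_left h5 hm]

theorem rate_cov [Nonempty X] {F : X → X} {J : Type*} [Fintype J] [DecidableEq J]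
    {g : J → X → ℝ} {β t : ℝ} (ht : 0 ≤ t) :
    ∃ c : ℝ, Tendsto (fun T : ℕ => Real.log (covR F (Rel g β t) T) / T) atTop (𝓝 c) ∧
      (∀ T : ℕ, c * T ≤ Real.log (covR F (Rel g β t) T)) ∧
      c ≤ Real.log (Fintype.card (Fin 1 × J → Bool)) :=
  growth (col_rel ht 1)

/-- Good windows exist below every scale. -/
theorem exists_window [CompactSpace X] [Nonempty X] (F : X → X) {δ κ : ℝ} (hδ : 0 < δ)
    (hκ : 0 < κ) : ∃ f, IsWindow F δ κ f := by
  classical
  obtain ⟨t0, -, ht0, hcov⟩ := (isCompact_univ (X := X)).finite_cover_balls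
    (show 0 < δ / 4 by positivity)
  haveI : Fintype ↥t0 := ht0.fintype
  have hcov' : ∀ x : X, ∃ j : ↥t0, dist x j < δ / 4 := by
    intro x
    have := hcov (Set.mem_univ x)
    simp only [Set.mem_iUnion, Metric.mem_ball] at this
    obtain ⟨j, hj, hx⟩ := this
    exact ⟨⟨j, hj⟩, hx⟩
  haveI : Nonempty ↥t0 := ⟨(hcov' (Classical.arbitrary X)).choose⟩
  set g : ↥t0 → X → ℝ := fun j x => max 0 (min 1 ((dist x j - δ / 4) / (δ / 4))) with hg
  have hgl : ∀ (j : ↥t0) (x y : X), |g j x - g j y| ≤ (4 / δ) * dist x y := by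
    intro j x y
    have h1 : |max 0 (min 1 ((dist x j - δ / 4) / (δ / 4))) -
        max 0 (min 1 ((dist y j - δ / 4) / (δ / 4)))| ≤
        |(dist x j - δ / 4) / (δ / 4) - (dist y j - δ / 4) / (δ / 4)| := clamp_lip _ _
    refine h1.trans ?_
    rw [← sub_div, abs_div, abs_of_pos (by positivity : 0 < δ / 4), div_le_iff₀ (by positivity)]
    have h2 : dist x ↑j - δ / 4 - (dist y ↑j - δ / 4) = dist x j - dist y j := by ring
    rw [h2]
    have h3 := abs_dist_sub_le x y (j : X)
    calc _ ≤ dist x y := h3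
      _ = 4 / δ * dist x y * (δ / 4) := by field_simp
  have hg0 : ∀ (j : ↥t0) (x : X), dist x j < δ / 4 → g j x = 0 := by
    intro j x h
    simp only [hg]
    apply max_eq_left
    refine (min_le_right _ _).trans ?_
    apply div_nonpos_of_nonpos_of_nonneg <;> linarith
  have hg1 : ∀ (j : ↥t0) (x : X), δ / 2 ≤ dist x j → g j x = 1 := by
    intro j x h
    simp only [hg]
    rw [min_eq_left, max_eq_right zero_le_one]
    rw [le_div_iff₀ (by positivity)]
    linarith
  -- the supremum of the covering rates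
  set 𝒞 : Set ℝ := {c | ∃ β t : ℝ, 0 < t ∧ 0 < β - t ∧ β + t < 1 ∧
    Tendsto (fun T : ℕ => Real.log (covR F (Rel g β t) T) / T) atTop (𝓝 c)} with h𝒞
  have hne : 𝒞.Nonempty := by
    obtain ⟨c, hc, _⟩ := rate_cov (F := F) (g := g) (β := 1 / 2) (t := 1 / 4) (by norm_num)
    exact ⟨c, 1 / 2, 1 / 4, by norm_num, by norm_num, by norm_num, hc⟩
  have hbdd : BddAbove 𝒞 := by
    refine ⟨Real.log (Fintype.card (Fin 1 × ↥t0 → Bool)), ?_⟩
    rintro c ⟨β, t, ht, _, _, hc⟩
    obtain ⟨c', hc', _, h3⟩ := rate_cov (F := F) (g := g) (β := β) ht.le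
    rw [tendsto_nhds_unique hc hc']
    exact h3
  obtain ⟨c0, ⟨β, t, ht, hβ0, hβ1, hc0⟩, hc0s⟩ :=
    exists_lt_of_lt_csSup hne (show sSup 𝒞 - κ / 4 < sSup 𝒞 by linarith)
  obtain ⟨ρ, hρ, hρ1, hρκ⟩ := exists_rho (Fintype.card ↥t0) (show 0 < κ / 4 by positivity)
  obtain ⟨L, hL⟩ := exists_nat_gt ((Fintype.card ↥t0 : ℝ) / ρ ^ 2)
  have hL0 : (0 : ℝ) < L := lt_of_le_of_lt (by positivity) hL
  have hLρ : (Fintype.card ↥t0 : ℝ) / L ≤ ρ ^ 2 := by
    rw [div_lt_iff₀ (by positivity)] at hL
    rw [div_le_iff₀ hL0]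
    linarith
  obtain ⟨c', hc', hc'T, _⟩ := rate_cov (F := F) (g := g) (β := β) ht.le
  have hcc : c' = c0 := tendsto_nhds_unique hc' hc0
  rw [hcc] at hc'T
  obtain ⟨i, hi⟩ := key_lower (F := F) (g := g) ht hρ hρ1 (by exact_mod_cast hL0) hLρ hc'T
  obtain ⟨hz1, hz2⟩ := zone_mem (β := β) ht i
  set β' := zone β t L i with hβ'
  set t' := t / (2 * L) with ht'
  have ht'0 : 0 < t' := by positivity
  have hβ'0 : 0 < β' - t' := by linarith
  have hβ'1 : β' + t' < 1 := by linarith
  set τ := t' / 2 with hτ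
  have hτ0 : 0 < τ := by positivity
  set f : X → X → ℝ := fun x y => max 0 (min 1 ((width g β' x y - τ) / τ)) with hf
  have hfs : ∀ s, 0 ≤ s → s < 1 → (fun x y => f x y ≤ s) = Rel g β' (τ * (1 + s)) := by
    intro s hs0 hs1
    funext x y
    apply propext
    rw [← width_le_iff]
    simp only [hf]
    rw [max_le_iff, min_le_iff, div_le_iff₀ hτ0]
    constructor
    · rintro ⟨_, h | h⟩
      · linarith
      · linarith
    · intro h
      exact ⟨hs0, Or.inr (by linarith)⟩
  refine ⟨f, ?_, ?_, ?_, ?_, ?_, ?_, ?_, ?_⟩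
  · intro x y
    exact le_max_left _ _
  · intro x y
    exact max_le zero_le_one (min_le_left _ _)
  · intro x y
    simp only [hf]
    rw [width_symm]
  · refine ⟨(4 / δ) / τ, ?_⟩
    intro x y z
    have h1 := width_lip (β := β') hgl x y z
    have h2 : (width g β' x z - τ) / τ ≤ (width g β' x y - τ) / τ + (4 / δ) / τ * dist y z := by
      rw [div_mul_eq_mul_div, ← add_div]
      apply div_le_div_of_nonneg_right _ hτ0.le
      linarith
    have h3 : 0 ≤ (4 / δ) / τ * dist y z := by positivity
    simp only [hf]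
    apply max_le
    · have := le_max_left 0 (min 1 ((width g β' x y - τ) / τ))
      linarith
    · rcases le_total 1 ((width g β' x y - τ) / τ) with h | h
      · rw [min_eq_left h, max_eq_right zero_le_one]
        have := min_le_left 1 ((width g β' x z - τ) / τ)
        linarith
      · rw [min_eq_right h]
        have h4 := min_le_right 1 ((width g β' x z - τ) / τ)
        have h5 := le_max_right 0 ((width g β' x y - τ) / τ)
        linarith
  · refine ⟨δ * τ / 4, by positivity, ?_⟩
    intro x y hxy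
    have h0 : width g β' x x ≤ 0 := by
      rw [width_le_iff]
      exact Rel.refl le_rfl x
    have h1 := width_lip (β := β') hgl x x y
    have h2 : (4 / δ) * dist x y ≤ τ := by
      calc _ ≤ (4 / δ) * (δ * τ / 4) := mul_le_mul_of_nonneg_left hxy.le (by positivity)
        _ = τ := by field_simp
    simp only [hf]
    apply max_eq_left
    refine (min_le_right _ _).trans ?_
    apply div_nonpos_of_nonpos_of_nonneg <;> linarith
  · intro x y hxy
    obtain ⟨j, hj⟩ := hcov' x
    have h1 := hg0 j x hj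
    have h2 : g j y = 1 := by
      apply hg1
      have h3 := dist_triangle x j y
      rw [dist_comm (j : X) y] at h3
      linarith
    have h3 : 2 * τ ≤ width g β' x y := by
      unfold width
      refine le_trans ?_ (Finset.le_sup' (fun j => max (min (β' - g j x) (g j y - β'))
        (min (β' - g j y) (g j x - β'))) (Finset.mem_univ j))
      refine le_trans ?_ (le_max_left _ _)
      rw [h1, h2]
      apply le_min <;> linarith
    simp only [hf]
    rw [min_eq_left, max_eq_right zero_le_one]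
    rw [le_div_iff₀ hτ0]
    linarith
  · intro s hs
    rcases lt_or_ge s 1 with h | h
    · rw [hfs s hs h]
      exact ⟨_, col_rel (by positivity) 1⟩
    · refine ⟨1, fun _ => 0, ?_⟩
      intro x y _ t _
      exact (max_le zero_le_one (min_le_left _ _)).trans h
  · intro s hs0 hs1
    rw [hfs s hs0 hs1]
    obtain ⟨c, hc, _, _⟩ := rate_cov (F := F) (g := g) (β := β') (t := τ * (1 + s)) (by positivity)
    have hτs : τ * (1 + s) ≤ t' := by nlinarith
    have hτs' : τ * (1 + s) < t' := by nlinarith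
    have hc𝒞 : c ∈ 𝒞 := ⟨β', τ * (1 + s), by positivity, by linarith, by linarith, hc⟩
    have h1 := le_csSup hbdd hc𝒞
    refine ⟨c, hc, ?_⟩
    obtain ⟨T0, hT0⟩ := exists_nat_gt (Real.log 2 / (κ / 4))
    filter_upwards [eventually_gt_atTop T0] with T hT
    have hT' : (T0 : ℝ) < T := by exact_mod_cast hT
    have hTpos : (0 : ℝ) < T := lt_of_le_of_lt (Nat.cast_nonneg _) hT'
    rw [le_div_iff₀ hTpos]
    have h2 := hi T
    have h3 : (sepR F (Rel g β' t') T : ℝ) ≤ sepR F (Rel g β' (τ * (1 + s))) T := by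
      exact_mod_cast sepR_mono (F := F)
        (fun x y (h : Rel g β' (τ * (1 + s)) x y) => (Rel.mono (by linarith) (by linarith) h :
          Rel g β' t' x y))
        (col_rel (F := F) (g := g) (β := β') (τ := τ * (1 + s)) (by positivity) T)
    have h4 : (0 : ℝ) < sepR F (Rel g β' t') T := by
      exact_mod_cast sepR_pos (col_rel ht'0.le T)
    have h5 := Real.log_le_log h4 h3
    have h6 : Real.log 2 < T * (κ / 4) := by
      rw [div_lt_iff₀ (by positivity)] at hT0
      nlinarith
    have h7 := mul_le_mul_of_nonneg_right hρκ hTpos.le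
    nlinarith

end Pool.Agent.Helper23.Weiss
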