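import Pool.Agent.Helper23.Weiss.Defs
import Pool.Agent.Helper23.Weiss.Window

/-!
Gluing the windows into one metric.
-/

set_option autoImplicit false

namespace Pool.Agent.Helper23.Weiss

open Filter Topology

variable {X : Type*} [MetricSpace X]

/-- The compatibility conditions of a sequence of windows. -/
structure IsTower (f : ℕ → X → X → ℝ) (δ η : ℕ → ℝ) : Prop where
  nonneg : ∀ k x y, 0 ≤ f k x y
  le_one : ∀ k x y, f k x y ≤ 1
  symm : ∀ k x y, f k x y = f k y x
  far : ∀ k x y, δ k ≤ dist x y → f k x y = 1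
  near : ∀ k x y, dist x y < η k → f k x y = 0
  η_pos : ∀ k, 0 < η k
  step : ∀ k, 2 * δ (k + 1) ≤ η k
  small : ∀ k, δ (k + 1) ≤ (1 / 2) ^ (k + 2)
  modulus : ∀ k, ∀ j ≤ k, ∀ x y z, dist y z < δ (k + 1) → f j x z ≤ f j x y + (1 / 2) ^ (k + 2)

open Classical in
/-- The glued metric. -/
noncomputable def glue (f : ℕ → X → X → ℝ) (x y : X) : ℝ :=
  if h : ∃ k, 0 < f k x y then (1 / 2) ^ (Nat.find h) * (1 + f (Nat.find h) x y) / 2 else 0

/-- `k` is the level of the pair. -/
def IsLevel (f : ℕ → X → X → ℝ) (x y : X) (k : ℕ) : Prop :=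
  (∀ j < k, f j x y = 0) ∧ 0 < f k x y

namespace IsTower

variable {f : ℕ → X → X → ℝ} {δ η : ℕ → ℝ} (h : IsTower f δ η)

include h

theorem self (k : ℕ) (x : X) : f k x x = 0 :=
  h.near k x x (by rw [dist_self]; exact h.η_pos k)

theorem glue_self (x : X) : glue f x x = 0 := by
  unfold glue
  rw [dif_neg]
  push Not
  intro k
  rw [h.self]

theorem glue_of_level {x y : X} {k : ℕ} (hk : IsLevel f x y k) :
    glue f x y = (1 / 2) ^ k * (1 + f k x y) / 2 := by
  classical
  unfold glue
  have hex : ∃ k, 0 < f k x y := ⟨k, hk.2⟩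
  rw [dif_pos hex]
  have : Nat.find hex = k := by
    rw [Nat.find_eq_iff]
    refine ⟨hk.2, fun j hj => ?_⟩
    rw [hk.1 j hj]
    exact lt_irrefl 0
  rw [this]

theorem succ_eq_one {x y : X} {k : ℕ} (hk : 0 < f k x y) : f (k + 1) x y = 1 := by
  apply h.far
  have h1 : η k ≤ dist x y := by
    by_contra hcon
    push Not at hcon
    rw [h.near k x y hcon] at hk
    exact lt_irrefl 0 hk
  have := h.step k
  have h2 := h.η_pos k
  by_contra hcon
  push Not at hcon
  have h3 : 0 ≤ dist x y := dist_nonneg
  linarith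

theorem eq_one_of_lt {x y : X} {k j : ℕ} (hk : 0 < f k x y) (hj : k < j) : f j x y = 1 := by
  induction j, hj using Nat.le_induction with
  | base => exact h.succ_eq_one hk
  | succ j _ ih => exact h.succ_eq_one (by rw [ih]; exact one_pos)

theorem eq_zero_of_lt {x y : X} {k j : ℕ} (hk : f k x y < 1) (hj : j < k) : f j x y = 0 := by
  by_contra hcon
  have h1 : 0 < f j x y := lt_of_le_of_ne (h.nonneg j x y) (Ne.symm hcon)
  rw [h.eq_one_of_lt h1 hj] at hk
  exact lt_irrefl 1 hk

theorem exists_level {x y : X} (hxy : x ≠ y) : ∃ k, IsLevel f x y k := by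
  classical
  have hex : ∃ k, 0 < f k x y := by
    have hd : 0 < dist x y := dist_pos.2 hxy
    obtain ⟨n, hn⟩ := exists_pow_lt_of_lt_one hd (by norm_num : (1 / 2 : ℝ) < 1)
    refine ⟨n + 1, ?_⟩
    rw [h.far]
    · exact one_pos
    · have h1 := h.small n
      have h2 : (1 / 2 : ℝ) ^ (n + 2) ≤ (1 / 2) ^ n :=
        pow_le_pow_of_le_one (by norm_num) (by norm_num) (by omega)
      linarith
  refine ⟨Nat.find hex, fun j hj => ?_, Nat.find_spec hex⟩
  have := Nat.find_min hex hj
  exact le_antisymm (not_lt.1 this) (h.nonneg _ _ _)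

theorem level_gt {x y : X} {k : ℕ} (hk : IsLevel f x y k) : (1 / 2) ^ (k + 1) < glue f x y := by
  rw [h.glue_of_level hk, pow_succ]
  have h1 : (0 : ℝ) < (1 / 2) ^ k := by positivity
  have := hk.2
  nlinarith

theorem level_le {x y : X} {k : ℕ} (hk : IsLevel f x y k) : glue f x y ≤ (1 / 2) ^ k := by
  rw [h.glue_of_level hk]
  have h1 : (0 : ℝ) < (1 / 2) ^ k := by positivity
  have := h.le_one k x y
  nlinarith

theorem glue_nonneg (x y : X) : 0 ≤ glue f x y := by
  by_cases hxy : x = y
  · rw [hxy, h.glue_self]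
  · obtain ⟨k, hk⟩ := h.exists_level hxy
    have := h.level_gt hk
    have h1 : (0 : ℝ) < (1 / 2) ^ (k + 1) := by positivity
    linarith

theorem glue_le_one (x y : X) : glue f x y ≤ 1 := by
  by_cases hxy : x = y
  · rw [hxy, h.glue_self]
    exact zero_le_one
  · obtain ⟨k, hk⟩ := h.exists_level hxy
    exact (h.level_le hk).trans (pow_le_one₀ (by norm_num) (by norm_num))

theorem isLevel_symm {x y : X} {k : ℕ} (hk : IsLevel f x y k) : IsLevel f y x k :=
  ⟨fun j hj => by rw [h.symm]; exact hk.1 j hj, by rw [h.symm]; exact hk.2⟩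

theorem glue_symm (x y : X) : glue f x y = glue f y x := by
  by_cases hxy : x = y
  · rw [hxy]
  · obtain ⟨k, hk⟩ := h.exists_level hxy
    rw [h.glue_of_level hk, h.glue_of_level (h.isLevel_symm hk), h.symm]

/-- The key estimate for the triangle inequality. -/
theorem mod_le {x y z : X} {k b : ℕ} (hb : IsLevel f y z b) (hkb : k < b) :
    (1 / 2) ^ k * (f k x z - f k x y) / 2 ≤ glue f y z := by
  have hw : (0 : ℝ) < (1 / 2) ^ k := by positivity
  by_cases hfar : δ (k + 1) ≤ dist y z
  · -- then `b = k + 1` and the distance is `(1 / 2) ^ (k + 1)`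
    have h1 := h.far _ _ _ hfar
    have hbk : b = k + 1 := by
      by_contra hne
      have := hb.1 (k + 1) (by omega)
      rw [h1] at this
      norm_num at this
    subst hbk
    rw [h.glue_of_level hb, h1, pow_succ]
    have := h.le_one k x z
    have := h.nonneg k x y
    nlinarith
  · push Not at hfar
    -- find `i ≥ k + 1` with `dist y z < δ i` and `glue y z > (1/2)^(i+2)`
    obtain ⟨i, hik, hi, hgt⟩ : ∃ i, k ≤ i ∧ dist y z < δ (i + 1) ∧
        (1 / 2) ^ (i + 3) < glue f y z := by
      rcases Nat.lt_or_ge b (k + 2) with h1 | h1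
      · have hbk : b = k + 1 := by omega
        subst hbk
        refine ⟨k, le_rfl, hfar, ?_⟩
        have h2 := h.level_gt hb
        have h3 : (1 / 2 : ℝ) ^ (k + 3) ≤ (1 / 2) ^ (k + 1 + 1) :=
          pow_le_pow_of_le_one (by norm_num) (by norm_num) (by omega)
        linarith
      · refine ⟨b - 2, by omega, ?_, ?_⟩
        · by_contra hcon
          push Not at hcon
          have h2 := h.far _ _ _ hcon
          have h3 := hb.1 (b - 2 + 1) (by omega)
          rw [h2] at h3
          norm_num at h3
        · have h2 := h.level_gt hb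
          have h3 : b - 2 + 3 = b + 1 := by omega
          rw [h3]
          exact h2
    have h1 := h.modulus i k hik x y z hi
    have h2 : (1 / 2 : ℝ) ^ k ≤ 1 := pow_le_one₀ (by norm_num) (by norm_num)
    have h3 : (1 / 2 : ℝ) ^ (i + 3) = (1 / 2) ^ (i + 2) / 2 := by
      rw [pow_succ _ (i + 2)]
      ring
    have h4 : (0 : ℝ) < (1 / 2) ^ (i + 2) := by positivity
    have h5 : (1 / 2) ^ k * (f k x z - f k x y) ≤ (1 / 2 : ℝ) ^ (i + 2) := by
      rcases le_or_gt (f k x z - f k x y) 0 with h6 | h6
      · nlinarith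
      · nlinarith
    linarith

theorem triangle (x y z : X) : glue f x z ≤ glue f x y + glue f y z := by
  by_cases hxz : x = z
  · rw [hxz, h.glue_self]
    exact add_nonneg (h.glue_nonneg _ _) (h.glue_nonneg _ _)
  by_cases hxy : x = y
  · rw [hxy, h.glue_self, zero_add]
  by_cases hyz : y = z
  · rw [hyz, h.glue_self, add_zero]
  obtain ⟨k, hk⟩ := h.exists_level hxz
  obtain ⟨a, ha⟩ := h.exists_level hxy
  obtain ⟨b, hb⟩ := h.exists_level hyz
  have hkle := h.level_le hk
  rcases Nat.lt_or_ge a k with hak | hak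
  · have h1 := h.level_gt ha
    have h2 : (1 / 2 : ℝ) ^ k ≤ (1 / 2) ^ (a + 1) :=
      pow_le_pow_of_le_one (by norm_num) (by norm_num) (by omega)
    linarith [h.glue_nonneg y z]
  rcases Nat.lt_or_ge b k with hbk | hbk
  · have h1 := h.level_gt hb
    have h2 : (1 / 2 : ℝ) ^ k ≤ (1 / 2) ^ (b + 1) :=
      pow_le_pow_of_le_one (by norm_num) (by norm_num) (by omega)
    linarith [h.glue_nonneg x y]
  have hkeq := h.glue_of_level hk
  have hw : (0 : ℝ) < (1 / 2) ^ k := by positivity
  have hw1 : (1 / 2 : ℝ) ^ (k + 1) = (1 / 2) ^ k / 2 := by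
    rw [pow_succ]
    ring
  rcases Nat.eq_or_lt_of_le hak with hak | hak
  · subst hak
    rcases Nat.eq_or_lt_of_le hbk with hbk | hbk
    · subst hbk
      have h1 := h.level_gt ha
      have h2 := h.level_gt hb
      rw [hw1] at h1 h2
      linarith
    · have h1 := h.mod_le (x := x) hb hbk
      rw [hkeq, h.glue_of_level ha]
      linarith
  · rcases Nat.eq_or_lt_of_le hbk with hbk | hbk
    · subst hbk
      have h1 := h.mod_le (x := z) (h.isLevel_symm ha) hak
      rw [h.symm k z x, h.symm k z y, h.glue_symm y x] at h1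
      rw [hkeq, h.glue_of_level hb]
      linarith
    · -- both at levels above `k`
      have h0xy : f k x y = 0 := ha.1 k hak
      have h0yz : f k y z = 0 := hb.1 k hbk
      by_cases hfar1 : δ (k + 1) ≤ dist x y
      · have h1 := h.far _ _ _ hfar1
        have hak' : a = k + 1 := by
          by_contra hne
          have := ha.1 (k + 1) (by omega)
          rw [h1] at this
          norm_num at this
        subst hak'
        have h2 := h.mod_le (x := x) hb hbk
        rw [h0xy] at h2
        rw [hkeq, h.glue_of_level ha, h1, hw1]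
        linarith
      by_cases hfar2 : δ (k + 1) ≤ dist y z
      · have h1 := h.far _ _ _ hfar2
        have hbk' : b = k + 1 := by
          by_contra hne
          have := hb.1 (k + 1) (by omega)
          rw [h1] at this
          norm_num at this
        subst hbk'
        have h2 := h.mod_le (x := z) (h.isLevel_symm ha) hak
        rw [h.symm k z x, h.symm k z y, h0yz, h.glue_symm y x] at h2
        rw [hkeq, h.glue_of_level hb, h1, hw1]
        linarith
      · push Not at hfar1 hfar2
        exfalso
        have h1 : dist x z < η k := by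
          have h2 := dist_triangle x y z
          have h3 := h.step k
          linarith
        have h2 := h.near k x z h1
        have h3 := hk.2
        rw [h2] at h3
        exact lt_irrefl 0 h3

/-- The relation `glue ≤ ε`. -/
theorem glue_le_iff {k : ℕ} {s : ℝ} (hs0 : 0 ≤ s) (hs1 : s < 1) (x y : X) :
    glue f x y ≤ (1 / 2) ^ k * (1 + s) / 2 ↔ f k x y ≤ s := by
  have hw : (0 : ℝ) < (1 / 2) ^ k := by positivity
  have hw1 : (1 / 2 : ℝ) ^ (k + 1) = (1 / 2) ^ k / 2 := by
    rw [pow_succ]
    ring
  by_cases hxy : x = y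
  · subst hxy
    rw [h.glue_self, h.self]
    constructor
    · intro _
      exact hs0
    · intro _
      positivity
  obtain ⟨j, hj⟩ := h.exists_level hxy
  rcases lt_trichotomy j k with hjk | hjk | hjk
  · have h1 := h.level_gt hj
    have h2 : (1 / 2 : ℝ) ^ k ≤ (1 / 2) ^ (j + 1) :=
      pow_le_pow_of_le_one (by norm_num) (by norm_num) (by omega)
    rw [h.eq_one_of_lt hj.2 hjk]
    constructor
    · intro h3
      nlinarith
    · intro h3
      linarith
  · subst hjk
    rw [h.glue_of_level hj]
    constructor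
    · intro h3
      have h4 : (1 / 2 : ℝ) ^ j * (1 + f j x y) ≤ (1 / 2) ^ j * (1 + s) := by linarith
      have := le_of_mul_le_mul_left h4 hw
      linarith
    · intro h3
      have : (1 / 2 : ℝ) ^ j * (1 + f j x y) ≤ (1 / 2) ^ j * (1 + s) :=
        mul_le_mul_of_nonneg_left (by linarith) hw.le
      linarith
  · have h1 := h.level_le hj
    have h2 : (1 / 2 : ℝ) ^ j ≤ (1 / 2) ^ (k + 1) :=
      pow_le_pow_of_le_one (by norm_num) (by norm_num) (by omega)
    rw [hj.1 k hjk]
    constructor
    · intro _
      exact hs0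
    · intro _
      rw [hw1] at h2
      nlinarith

theorem isEquivMetric : IsEquivMetric (glue f) := by
  refine ⟨?_, h.glue_symm, h.triangle, ?_⟩
  · intro x y
    constructor
    · intro h0
      by_contra hxy
      obtain ⟨k, hk⟩ := h.exists_level hxy
      have h1 := h.level_gt hk
      have h2 : (0 : ℝ) < (1 / 2) ^ (k + 1) := by positivity
      linarith
    · rintro rfl
      exact h.glue_self x
  · intro s
    rw [Metric.isOpen_iff]
    constructor
    · intro hs x hx
      obtain ⟨r, hr, hball⟩ := hs x hx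
      obtain ⟨n, hn⟩ := exists_pow_lt_of_lt_one hr (by norm_num : (1 / 2 : ℝ) < 1)
      refine ⟨(1 / 2) ^ (n + 2), by positivity, ?_⟩
      intro y hy
      apply hball
      rw [Metric.mem_ball, dist_comm]
      by_cases hxy : x = y
      · rw [hxy, dist_self]
        exact hr
      obtain ⟨k, hk⟩ := h.exists_level hxy
      by_contra hcon
      push Not at hcon
      have h1 := h.small n
      have h2 : (1 / 2 : ℝ) ^ (n + 2) ≤ (1 / 2) ^ n :=
        pow_le_pow_of_le_one (by norm_num) (by norm_num) (by omega)
      have h3 : f (n + 1) x y = 1 := h.far _ _ _ (by linarith)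
      have h4 : k ≤ n + 1 := by
        by_contra h5
        push Not at h5
        have := hk.1 (n + 1) h5
        rw [h3] at this
        norm_num at this
      have h5 := h.level_gt hk
      have h6 : (1 / 2 : ℝ) ^ (n + 2) ≤ (1 / 2) ^ (k + 1) :=
        pow_le_pow_of_le_one (by norm_num) (by norm_num) (by omega)
      linarith
    · intro hs x hx
      obtain ⟨ε, hε, hball⟩ := hs x hx
      obtain ⟨n, hn⟩ := exists_pow_lt_of_lt_one hε (by norm_num : (1 / 2 : ℝ) < 1)
      refine ⟨η n, h.η_pos n, ?_⟩
      intro y hy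
      rw [Metric.mem_ball, dist_comm] at hy
      apply hball
      by_cases hxy : x = y
      · rw [hxy, h.glue_self]
        exact hε
      obtain ⟨k, hk⟩ := h.exists_level hxy
      have h1 := h.near n x y hy
      have h2 : n < k := by
        by_contra hcon
        push Not at hcon
        rcases Nat.eq_or_lt_of_le hcon with h3 | h3
        · subst h3
          have h3 := hk.2
          rw [h1] at h3
          exact lt_irrefl 0 h3
        · rw [h.eq_one_of_lt hk.2 h3] at h1
          norm_num at h1
      have h3 := h.level_le hk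
      have h4 : (1 / 2 : ℝ) ^ k ≤ (1 / 2) ^ n :=
        pow_le_pow_of_le_one (by norm_num) (by norm_num) (by omega)
      linarith

end IsTower

end Pool.Agent.Helper23.Weiss
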