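import Pool.Agent.Helper23.Weiss.Names

/-!
Hamming balls, greedy choice, blocks.
-/

set_option autoImplicit false

namespace Pool.Agent.Helper23.Weiss

open Filter Topology

section Hamming

variable {P : Type*} [Fintype P] [DecidableEq P]

theorem hamming_sum (ν : P → Bool) (z : ℝ) :
    ∑ μ : P → Bool, z ^ hammingDist ν μ = (1 + z) ^ Fintype.card P := by
  have h1 : ∀ μ : P → Bool, z ^ hammingDist ν μ = ∏ p, (if ν p ≠ μ p then z else 1) := by
    intro μ
    rw [Finset.prod_ite, Finset.prod_const, Finset.prod_const_one, mul_one]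
    rfl
  have h2 : ∀ p, ∑ b : Bool, (if ν p ≠ b then z else 1) = 1 + z := by
    intro p
    rcases h : ν p with _ | _ <;> simp [add_comm]
  calc _ = ∑ μ : P → Bool, ∏ p, (if ν p ≠ μ p then z else 1) := Finset.sum_congr rfl fun μ _ => h1 μ
    _ = ∏ p, ∑ b : Bool, (if ν p ≠ b then z else 1) := by
        rw [Finset.prod_univ_sum, Fintype.piFinset_univ]
    _ = _ := by
        rw [Finset.prod_congr rfl (fun p _ => h2 p), Finset.prod_const, Finset.card_univ]

open Classical in
theorem hamming_ball (ν : P → Bool) {z : ℝ} (hz : 0 < z) (hz1 : z ≤ 1) (r : ℝ) :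
    ((Finset.univ.filter (fun μ : P → Bool => (hammingDist ν μ : ℝ) ≤ r)).card : ℝ) ≤
      Real.exp (z * Fintype.card P + r * Real.log (1 / z)) := by
  set A := Finset.univ.filter (fun μ : P → Bool => (hammingDist ν μ : ℝ) ≤ r) with hA
  have hlz : Real.log z ≤ 0 := Real.log_nonpos hz.le hz1
  have h1 : (A.card : ℝ) * Real.exp (r * Real.log z) ≤ (1 + z) ^ Fintype.card P := by
    rw [← hamming_sum ν z, ← nsmul_eq_mul]
    calc _ = ∑ μ ∈ A, Real.exp (r * Real.log z) := by rw [Finset.sum_const]
      _ ≤ ∑ μ ∈ A, z ^ hammingDist ν μ := by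
          apply Finset.sum_le_sum
          intro μ hμ
          have h2 := (Finset.mem_filter.1 hμ).2
          rw [← Real.exp_log (pow_pos hz (hammingDist ν μ)), Real.log_pow, Real.exp_le_exp]
          nlinarith
      _ ≤ ∑ μ : P → Bool, z ^ hammingDist ν μ :=
          Finset.sum_le_univ_sum_of_nonneg fun μ => pow_nonneg hz.le _
  have h2 : (1 + z) ^ Fintype.card P ≤ Real.exp (z * Fintype.card P) := by
    rw [mul_comm, Real.exp_nat_mul]
    apply pow_le_pow_left₀ (by linarith)
    rw [add_comm]
    exact Real.add_one_le_exp z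
  have h3 : Real.exp (z * Fintype.card P + r * Real.log (1 / z)) * Real.exp (r * Real.log z)
      = Real.exp (z * Fintype.card P) := by
    rw [← Real.exp_add]
    congr 1
    rw [one_div, Real.log_inv]
    ring
  have h4 := Real.exp_pos (r * Real.log z)
  have h5 : (A.card : ℝ) * Real.exp (r * Real.log z) ≤
      Real.exp (z * Fintype.card P + r * Real.log (1 / z)) * Real.exp (r * Real.log z) := by
    rw [h3]
    exact h1.trans h2
  exact le_of_mul_le_mul_right h5 h4

end Hamming

theorem exists_max_subset {A : Type*} (N : Finset A) (Q : Finset A → Prop) (h0 : Q ∅) :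
    ∃ S ⊆ N, Q S ∧ ∀ S' ⊆ N, Q S' → S'.card ≤ S.card := by
  classical
  have hne : (N.powerset.filter Q).Nonempty :=
    ⟨∅, Finset.mem_filter.2 ⟨Finset.empty_mem_powerset _, h0⟩⟩
  obtain ⟨S, hS, hmax⟩ := Finset.exists_max_image (N.powerset.filter Q) Finset.card hne
  obtain ⟨hSN, hSc⟩ := Finset.mem_filter.1 hS
  exact ⟨S, Finset.mem_powerset.1 hSN, hSc, fun S' h1 h2 =>
    hmax S' (Finset.mem_filter.2 ⟨Finset.mem_powerset.2 h1, h2⟩)⟩

open Classical in
/-- Greedy choice of a conflict-free subset. -/
theorem greedy {A : Type*} (N : Finset A) (conf : A → A → Prop) (hsymm : ∀ a b, conf a b → conf b a)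
    (hrefl : ∀ a, conf a a) {V : ℝ} (hV : ∀ a ∈ N, ((N.filter (fun b => conf a b)).card : ℝ) ≤ V) :
    ∃ S ⊆ N, (∀ a ∈ S, ∀ b ∈ S, a ≠ b → ¬ conf a b) ∧ (N.card : ℝ) ≤ S.card * V := by
  obtain ⟨S, hSN, hSc, hmax⟩ := exists_max_subset N
    (fun S => ∀ a ∈ S, ∀ b ∈ S, a ≠ b → ¬ conf a b) (by intro a ha; simp at ha)
  refine ⟨S, hSN, hSc, ?_⟩
  have hcov : N ⊆ S.biUnion (fun a => N.filter (fun b => conf a b)) := by
    intro b hb
    rw [Finset.mem_biUnion]
    by_contra hcon
    push Not at hcon
    have hb' : ∀ a ∈ S, ¬ conf a b := by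
      intro a ha hab
      exact hcon a ha (Finset.mem_filter.2 ⟨hb, hab⟩)
    have hbS : b ∉ S := fun h => hb' b h (hrefl b)
    have h2 := hmax (insert b S) (Finset.insert_subset hb hSN) (by
      intro x hx y hy hxy
      rw [Finset.mem_insert] at hx hy
      rcases hx with rfl | hx
      · rcases hy with rfl | hy
        · exact absurd rfl hxy
        · exact fun h => hb' y hy (hsymm _ _ h)
      · rcases hy with rfl | hy
        · exact hb' x hx
        · exact hSc x hx y hy hxy)
    rw [Finset.card_insert_of_notMem hbS] at h2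
    omega
  have h1 := (Finset.card_le_card hcov).trans Finset.card_biUnion_le
  have h2 : (N.card : ℝ) ≤ ∑ a ∈ S, ((N.filter (fun b => conf a b)).card : ℝ) := by
    exact_mod_cast h1
  refine h2.trans ?_
  calc _ ≤ ∑ a ∈ S, V := Finset.sum_le_sum fun a ha => hV a (hSN ha)
    _ = _ := by rw [Finset.sum_const, nsmul_eq_mul]

variable {X : Type*} {F : X → X} {J : Type*} [Fintype J] [DecidableEq J] {g : J → X → ℝ}

omit [Fintype J] [DecidableEq J] in
theorem Rel.symm {β t : ℝ} {x y : X} (h : Rel g β t x y) : Rel g β t y x :=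
  fun j => ⟨(h j).2, (h j).1⟩

omit [Fintype J] [DecidableEq J] in
theorem Rel.refl {β t : ℝ} (ht : 0 ≤ t) (x : X) : Rel g β t x x :=
  fun j => ⟨fun ⟨h1, h2⟩ => by linarith, fun ⟨h1, h2⟩ => by linarith⟩

/-- Related clean points have close names. -/
theorem hamming_of_rel {β τ : ℝ} {T : ℕ} {x y : X}
    (h : ∀ t < T, Rel g β τ (F^[t] x) (F^[t] y)) :
    hammingDist (nm F g β T x) (nm F g β T y) ≤ vis F g β τ T x + vis F g β τ T y := by
  classical
  unfold hammingDist vis
  rw [← Finset.card_filter, ← Finset.card_filter]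
  refine le_trans (Finset.card_le_card ?_) (Finset.card_union_le _ _)
  intro p hp
  have h1 := (Finset.mem_filter.1 hp).2
  rw [Finset.mem_union, Finset.mem_filter, Finset.mem_filter]
  by_contra hcon
  push Not at hcon
  obtain ⟨hx, hy⟩ := hcon
  have hx := hx (Finset.mem_univ _)
  have hy := hy (Finset.mem_univ _)
  obtain ⟨ha, hb⟩ := h p.1 p.1.2 p.2
  apply h1
  unfold nm
  rw [decide_eq_decide]
  rw [lt_abs] at hx hy
  constructor
  · intro h2
    by_contra h3
    push Not at h3
    apply hb
    constructor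
    · rcases hy with h4 | h4
      · rcases hx with h5 | h5 <;> linarith
      · linarith
    · rcases hx with h4 | h4
      · linarith
      · rcases hy with h5 | h5 <;> linarith
  · intro h2
    by_contra h3
    push Not at h3
    apply ha
    constructor
    · rcases hx with h4 | h4
      · rcases hy with h5 | h5 <;> linarith
      · linarith
    · rcases hy with h4 | h4
      · linarith
      · rcases hx with h5 | h5 <;> linarith

end Pool.Agent.Helper23.Weiss
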