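import Pool.Agent.Helper23.Weiss.Block

/-!
The lower bound: one threshold is good at all times.
-/

set_option autoImplicit false

namespace Pool.Agent.Helper23.Weiss

open Filter Topology

variable {X : Type*} {F : X → X} {J : Type*} [Fintype J] [DecidableEq J] {g : J → X → ℝ}

theorem exists_index [Nonempty X] {β t c : ℝ} (ht : 0 < t) {L : ℕ} (hL : 0 < L)
    (hc : ∀ T : ℕ, c * T ≤ Real.log (covR F (Rel g β t) T)) :
    ∃ i : Fin L, ∀ T : ℕ, 0 < T → ∀ K : ℕ, ∃ q : ℕ, K ≤ q ∧
      Real.exp (c * (q * T : ℕ)) ≤ L * ((NS F g (zone β t L i) (t / (2 * L)) (q * T)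
        (((q * T : ℕ) : ℝ) * Fintype.card J / L)).card : ℝ) := by
  set Q : Fin L → ℕ → Prop := fun i S => Real.exp (c * (S : ℕ)) ≤
    L * ((NS F g (zone β t L i) (t / (2 * L)) S ((S : ℝ) * Fintype.card J / L)).card : ℝ) with hQ
  have h1 : ∀ S : ℕ, ∃ i, Q i S := by
    intro S
    by_contra hcon
    push Not at hcon
    have h2 : ∑ i : Fin L, (L * ((NS F g (zone β t L i) (t / (2 * L)) S
        ((S : ℝ) * Fintype.card J / L)).card : ℝ)) < ∑ i : Fin L, Real.exp (c * S) := by
      apply Finset.sum_lt_sum_of_nonempty ⟨⟨0, hL⟩, Finset.mem_univ _⟩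
      intro i _
      exact not_le.1 (hcon i)
    rw [← Finset.mul_sum, Finset.sum_const, Finset.card_univ, Fintype.card_fin,
      nsmul_eq_mul] at h2
    have hL' : (0 : ℝ) < L := by exact_mod_cast hL
    have h3 := lt_of_mul_lt_mul_left h2 hL'.le
    have h4 := cover_clean F g (β := β) ht hL S
    have h5 : (covR F (Rel g β t) S : ℝ) ≤ ∑ i : Fin L, ((NS F g (zone β t L i) (t / (2 * L)) S
        ((S : ℝ) * Fintype.card J / L)).card : ℝ) := by exact_mod_cast h4
    have h6 : (0 : ℝ) < covR F (Rel g β t) S := by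
      exact_mod_cast covR_pos (col_rel ht.le S)
    have h7 := Real.exp_le_exp.2 (hc S)
    rw [Real.exp_log h6] at h7
    linarith
  have h2 : ∃ i, ∃ᶠ n : ℕ in atTop, Q i (n.factorial) := by
    by_contra hcon
    push Not at hcon
    have h3 : ∀ i, ∀ᶠ n : ℕ in atTop, ¬ Q i (n.factorial) := hcon
    obtain ⟨n, hn⟩ := (eventually_all.2 h3).exists
    obtain ⟨i, hi⟩ := h1 n.factorial
    exact hn i hi
  obtain ⟨i, hi⟩ := h2
  refine ⟨i, ?_⟩
  intro T hT K
  obtain ⟨n, hn, hQn⟩ := frequently_atTop.1 hi (max T (K * T))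
  have hdvd : T ∣ n.factorial := Nat.dvd_factorial hT ((le_max_left _ _).trans hn)
  have hq : n.factorial / T * T = n.factorial := Nat.div_mul_cancel hdvd
  refine ⟨n.factorial / T, ?_, ?_⟩
  · rw [Nat.le_div_iff_mul_le hT]
    exact (le_max_right _ _).trans (hn.trans (Nat.self_le_factorial n))
  · rw [hq]
    exact hQn

/-- One threshold is good at all times. -/
theorem key_lower [Nonempty X] {β t c ρ : ℝ} (ht : 0 < t) (hρ : 0 < ρ) (hρ1 : ρ ≤ 1) {L : ℕ}
    (hL : 0 < L) (hLρ : (Fintype.card J : ℝ) / L ≤ ρ ^ 2)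
    (hc : ∀ T : ℕ, c * T ≤ Real.log (covR F (Rel g β t) T)) :
    ∃ i : Fin L, ∀ T : ℕ, c * T - Real.log 2 - (Real.log 2 * Fintype.card J * ρ +
      Fintype.card J * ρ + 2 * ρ * Real.log (1 / ρ)) * T ≤
        Real.log (sepR F (Rel g (zone β t L i) (t / (2 * L))) T) := by
  obtain ⟨i, hi⟩ := exists_index (F := F) (g := g) ht hL hc
  have hL' : (0 : ℝ) < L := by exact_mod_cast hL
  have hlog2 : 0 ≤ Real.log 2 := Real.log_nonneg (by norm_num)
  have hlogρ : 0 ≤ Real.log (1 / ρ) := Real.log_nonneg (by rw [le_div_iff₀ hρ]; linarith)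
  refine ⟨i, ?_⟩
  intro T
  set β' := zone β t L i with hβ'
  set τ := t / (2 * L) with hτ
  have hτ0 : 0 ≤ τ := by positivity
  have hspos : 0 < sepR F (Rel g β' τ) T := sepR_pos (col_rel hτ0 T)
  have hs1 : (1 : ℝ) ≤ sepR F (Rel g β' τ) T := by exact_mod_cast hspos
  rcases Nat.eq_zero_or_pos T with rfl | hT
  · have := Real.log_nonneg hs1
    simp only [Nat.cast_zero, mul_zero]
    linarith
  have hT' : (0 : ℝ) < T := by exact_mod_cast hT
  set N' : ℕ := max 1 (NS F g β' τ T (ρ * T)).card with hN'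
  have hN'1 : (1 : ℝ) ≤ N' := by exact_mod_cast le_max_left 1 _
  -- lower bound for the number of clean names
  have hkey : c * T - Real.log 2 - Real.log 2 * (T * Fintype.card J) * ρ ≤ Real.log N' := by
    by_contra hcon
    push Not at hcon
    set ε := c * T - Real.log 2 - Real.log 2 * (T * Fintype.card J) * ρ - Real.log N' with hε
    have hε0 : 0 < ε := by rw [hε]; linarith
    obtain ⟨K, hK⟩ := exists_nat_gt (Real.log L / ε)
    obtain ⟨q, hKq, hq⟩ := hi T hT (K + 1)
    have hq0 : (0 : ℝ) < q := by exact_mod_cast (by omega : 0 < q)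
    have h1 := block_bound (F := F) (g := g) (β := β') (τ := τ) (q := q) hT hρ hLρ
    have h2 : (((q * T : ℕ) : ℝ) * Fintype.card J / L) = (Fintype.card J : ℝ) / L * (q * T) := by
      push_cast
      ring
    rw [h2] at hq
    have h3 : Real.exp (c * (q * T : ℕ)) ≤ L * (2 ^ q * (N' : ℝ) ^ q *
        Real.exp (Real.log 2 * (T * Fintype.card J) * (ρ * q))) :=
      hq.trans (mul_le_mul_of_nonneg_left h1 hL'.le)
    have h4 := Real.log_le_log (Real.exp_pos _) h3
    rw [Real.log_exp, Real.log_mul hL'.ne' (by positivity),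
      Real.log_mul (by positivity) (Real.exp_pos _).ne', Real.log_exp,
      Real.log_mul (by positivity) (by positivity), Real.log_pow, Real.log_pow] at h4
    push_cast at h4
    have h5 : (q : ℝ) * ε ≤ Real.log L := by
      rw [hε]
      nlinarith
    have h6 : Real.log L < K * ε := (div_lt_iff₀ hε0).1 hK
    have h7 : (K : ℝ) ≤ q := by exact_mod_cast (by omega : K ≤ q)
    nlinarith
  -- passing to separated sets
  have hN'le : (N' : ℝ) ≤ sepR F (Rel g β' τ) T *
      Real.exp (ρ * (T * Fintype.card J) + 2 * (ρ * T) * Real.log (1 / ρ)) := by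
    have h1 := sep_lower (F := F) (g := g) (β := β') hτ0 T (ρ * T) hρ hρ1
    have h2 : (1 : ℝ) ≤ Real.exp (ρ * (T * Fintype.card J) + 2 * (ρ * T) * Real.log (1 / ρ)) := by
      exact Real.one_le_exp (add_nonneg (by positivity) (mul_nonneg (by positivity) hlogρ))
    have h3 : (N' : ℝ) = max 1 ((NS F g β' τ T (ρ * T)).card : ℝ) := by
      rw [hN']
      push_cast
      rfl
    rw [h3]
    apply max_le _ h1
    nlinarith
  have hfin : Real.log N' ≤ Real.log (sepR F (Rel g β' τ) T) +
      (ρ * (T * Fintype.card J) + 2 * (ρ * T) * Real.log (1 / ρ)) := by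
    have h1 := Real.log_le_log (by linarith) hN'le
    rwa [Real.log_mul (by linarith) (Real.exp_pos _).ne', Real.log_exp] at h1
  nlinarith

end Pool.Agent.Helper23.Weiss
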