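import Pool.Agent.Helper23.Weiss.Rel

/-!
Names of orbit segments with respect to a threshold, visits of the threshold zone.
-/

set_option autoImplicit false

namespace Pool.Agent.Helper23.Weiss

open Filter Topology

variable {X : Type*} {F : X → X} {J : Type*} [Fintype J] [DecidableEq J] {g : J → X → ℝ}

/-- Not separated by the threshold zone `[β - t, β + t]`. -/
def Rel (g : J → X → ℝ) (β t : ℝ) (x y : X) : Prop :=
  ∀ j, ¬ (g j x < β - t ∧ β + t < g j y) ∧ ¬ (g j y < β - t ∧ β + t < g j x)

omit [Fintype J] [DecidableEq J] in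
theorem Rel.mono {β t β' t' : ℝ} (h1 : β - t ≤ β' - t') (h2 : β' + t' ≤ β + t) {x y : X}
    (h : Rel g β' t' x y) : Rel g β t x y := by
  intro j
  obtain ⟨ha, hb⟩ := h j
  exact ⟨fun ⟨h3, h4⟩ => ha ⟨by linarith, by linarith⟩,
    fun ⟨h3, h4⟩ => hb ⟨by linarith, by linarith⟩⟩

open Classical in
/-- The name of `x` up to time `T`. -/
noncomputable def nm (F : X → X) (g : J → X → ℝ) (β : ℝ) (T : ℕ) (x : X) : Fin T × J → Bool :=
  fun p => decide (β ≤ g p.2 (F^[p.1] x))

open Classical in
/-- The number of visits of the zone. -/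
noncomputable def vis (F : X → X) (g : J → X → ℝ) (β τ : ℝ) (T : ℕ) (x : X) : ℕ :=
  ∑ p : Fin T × J, if |g p.2 (F^[p.1] x) - β| ≤ τ then 1 else 0

open Classical in
/-- The names of the points with few visits. -/
noncomputable def NS (F : X → X) (g : J → X → ℝ) (β τ : ℝ) (T : ℕ) (r : ℝ) :
    Finset (Fin T × J → Bool) :=
  Finset.univ.filter (fun ν => ∃ x, nm F g β T x = ν ∧ (vis F g β τ T x : ℝ) ≤ r)

omit [Fintype J] [DecidableEq J] in
theorem rel_of_nm_eq {β τ : ℝ} (hτ : 0 ≤ τ) {T : ℕ} {x y : X}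
    (h : nm F g β T x = nm F g β T y) (t : ℕ) (ht : t < T) :
    Rel g β τ (F^[t] x) (F^[t] y) := by
  intro j
  have h1 := congrFun h (⟨t, ht⟩, j)
  simp only [nm, decide_eq_decide] at h1
  constructor
  · rintro ⟨h2, h3⟩
    have := h1.2 (by linarith)
    linarith
  · rintro ⟨h2, h3⟩
    have := h1.1 (by linarith)
    linarith

theorem col_rel {β τ : ℝ} (hτ : 0 ≤ τ) (T : ℕ) :
    Col F (Rel g β τ) T (Fintype.card (Fin T × J → Bool)) := by
  classical
  exact col_of_fintype (nm F g β T) fun x y hxy t ht => rel_of_nm_eq hτ hxy t ht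

theorem card_names (T : ℕ) :
    Fintype.card (Fin T × J → Bool) = 2 ^ (T * Fintype.card J) := by
  classical
  simp

/-- The zones. -/
noncomputable def zone (β t : ℝ) (L : ℕ) (i : Fin L) : ℝ := β - t + (2 * (i : ℕ) + 1) * t / L

theorem zone_mem {β t : ℝ} (ht : 0 < t) {L : ℕ} (i : Fin L) :
    β - t ≤ zone β t L i - t / (2 * L) ∧ zone β t L i + t / (2 * L) ≤ β + t := by
  have hL : (0 : ℝ) < L := by exact_mod_cast (by have := i.2; omega : 0 < L)
  have hi : ((i : ℕ) : ℝ) + 1 ≤ L := by exact_mod_cast i.2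
  unfold zone
  constructor
  · have h1 : t / (2 * L) ≤ (2 * ((i : ℕ) : ℝ) + 1) * t / L := by
      rw [div_le_div_iff₀ (by positivity) hL]
      nlinarith [mul_nonneg ht.le hL.le, mul_nonneg (mul_nonneg (Nat.cast_nonneg (i : ℕ) : (0 : ℝ) ≤ (i : ℕ)) ht.le) hL.le]
    linarith
  · have h1 : (2 * ((i : ℕ) : ℝ) + 1) * t / L + t / (2 * L) ≤ 2 * t := by
      rw [div_add_div _ _ hL.ne' (by positivity), div_le_iff₀ (by positivity)]
      nlinarith [mul_nonneg ht.le hL.le, mul_le_mul_of_nonneg_left hi (mul_nonneg ht.le hL.le)]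
    linarith

open Classical in
/-- A number lies in at most one zone. -/
theorem zone_card_le {β t : ℝ} (ht : 0 < t) {L : ℕ} (a : ℝ) :
    (Finset.univ.filter (fun i : Fin L => |a - zone β t L i| ≤ t / (2 * L))).card ≤ 1 := by
  rw [Finset.card_le_one]
  intro i hi k hk
  have h1 := (Finset.mem_filter.1 hi).2
  have h2 := (Finset.mem_filter.1 hk).2
  have hL : (0 : ℝ) < L := by exact_mod_cast (by have := i.2; omega : 0 < L)
  have h3 : |zone β t L i - zone β t L k| ≤ t / L := by
    have : zone β t L i - zone β t L k = (a - zone β t L k) - (a - zone β t L i) := by ring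
    rw [this]
    calc _ ≤ |a - zone β t L k| + |a - zone β t L i| := abs_sub _ _
      _ ≤ t / (2 * L) + t / (2 * L) := add_le_add h2 h1
      _ = t / L := by field_simp; norm_num
  have h4 : zone β t L i - zone β t L k = (((i : ℕ) : ℝ) - ((k : ℕ) : ℝ)) * (2 * t / L) := by
    unfold zone
    field_simp
    ring
  rw [h4, abs_mul, abs_of_pos (by positivity : 0 < 2 * t / L)] at h3
  by_contra hne
  have h5 : (1 : ℝ) ≤ |((i : ℕ) : ℝ) - ((k : ℕ) : ℝ)| := by
    have h6 : ((i : ℕ) : ℤ) - ((k : ℕ) : ℤ) ≠ 0 := by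
      intro h
      exact hne (Fin.ext (by omega))
    have h7 := Int.one_le_abs h6
    exact_mod_cast h7
  have h8 : 0 < t / L := by positivity
  have h9 : 2 * t / L = 2 * (t / L) := by ring
  rw [h9] at h3
  nlinarith

omit [DecidableEq J] in
/-- Every orbit segment visits one of the zones rarely. -/
theorem exists_clean (F : X → X) (g : J → X → ℝ) {β t : ℝ} (ht : 0 < t) {L : ℕ} (hL : 0 < L)
    (T : ℕ) (x : X) :
    ∃ i : Fin L, L * vis F g (zone β t L i) (t / (2 * L)) T x ≤ T * Fintype.card J := by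
  classical
  by_contra hcon
  push Not at hcon
  have h1 : ∑ i : Fin L, vis F g (zone β t L i) (t / (2 * L)) T x ≤ T * Fintype.card J := by
    unfold vis
    rw [Finset.sum_comm]
    calc _ ≤ ∑ p : Fin T × J, 1 := by
          apply Finset.sum_le_sum
          intro p _
          rw [← Finset.card_filter]
          exact zone_card_le ht _
      _ = T * Fintype.card J := by simp
  have h2 : ∑ i : Fin L, (T * Fintype.card J) <
      ∑ i : Fin L, L * vis F g (zone β t L i) (t / (2 * L)) T x := by
    apply Finset.sum_lt_sum_of_nonempty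
    · exact ⟨⟨0, hL⟩, Finset.mem_univ _⟩
    · intro i _
      exact hcon i
  rw [Finset.sum_const, Finset.card_univ, Fintype.card_fin, ← Finset.mul_sum, smul_eq_mul] at h2
  have h3 := Nat.mul_le_mul_left L h1
  omega

/-- Names of clean points cover. -/
theorem cover_clean (F : X → X) (g : J → X → ℝ) {β t : ℝ} (ht : 0 < t) {L : ℕ} (hL : 0 < L)
    (T : ℕ) : covR F (Rel g β t) T ≤
      ∑ i : Fin L, (NS F g (zone β t L i) (t / (2 * L)) T
        ((T : ℝ) * Fintype.card J / L)).card := by
  classical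
  have hL' : (0 : ℝ) < L := by exact_mod_cast hL
  choose i hi using fun x => exists_clean F g (β := β) ht hL T x
  have hmem : ∀ x, nm F g (zone β t L (i x)) T x ∈ NS F g (zone β t L (i x)) (t / (2 * L)) T
        ((T : ℝ) * Fintype.card J / L) := by
    intro x
    unfold NS
    refine Finset.mem_filter.2 ⟨Finset.mem_univ _, x, rfl, ?_⟩
    rw [le_div_iff₀ hL']
    have := hi x
    have h2 : ((L * vis F g (zone β t L (i x)) (t / (2 * L)) T x : ℕ) : ℝ) ≤
        ((T * Fintype.card J : ℕ) : ℝ) := by exact_mod_cast this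
    push_cast at h2
    linarith
  have h1 := col_of_fintype (F := F) (R := Rel g β t) (T := T)
    (C := Σ i : Fin L, ↥(NS F g (zone β t L i) (t / (2 * L)) T ((T : ℝ) * Fintype.card J / L)))
    (fun x => ⟨i x, ⟨_, hmem x⟩⟩) (by
      intro x y hxy s hs
      have hii : i x = i y := congrArg Sigma.fst hxy
      have hnm : nm F g (zone β t L (i x)) T x = nm F g (zone β t L (i x)) T y := by
        have h2 : ∀ (a b : Σ i : Fin L, ↥(NS F g (zone β t L i) (t / (2 * L)) T
            ((T : ℝ) * Fintype.card J / L))), a = b → (a.2 : Fin T × J → Bool) = b.2 := by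
          rintro a b rfl
          rfl
        have h3 := h2 _ _ hxy
        simp only at h3
        rw [hii] at h3 ⊢
        exact h3
      have h4 := rel_of_nm_eq (F := F) (g := g) (τ := t / (2 * L)) (by positivity) hnm s hs
      exact h4.mono (zone_mem ht _).1 (zone_mem ht _).2)
  refine (covR_le h1).trans (le_of_eq ?_)
  rw [Fintype.card_sigma]
  simp

end Pool.Agent.Helper23.Weiss
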