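import Mathlib

/-!
Separation and clique covering numbers for a relation on the phase space.
-/

set_option autoImplicit false

namespace Pool.Agent.Helper23.Weiss

open Filter Topology

variable {X : Type*} {F : X → X} {R R' : X → X → Prop}

/-- `E` is separated at time `T`. -/
def SepSet (F : X → X) (R : X → X → Prop) (T : ℕ) (E : Finset X) : Prop :=
  ∀ x ∈ E, ∀ y ∈ E, x ≠ y → ∃ t < T, ¬ R (F^[t] x) (F^[t] y)

/-- `X` is the union of `n` classes of points related up to time `T`. -/
def Col (F : X → X) (R : X → X → Prop) (T n : ℕ) : Prop :=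
  ∃ φ : X → Fin n, ∀ x y, φ x = φ y → ∀ t < T, R (F^[t] x) (F^[t] y)

/-- Largest separated set. -/
noncomputable def sepR (F : X → X) (R : X → X → Prop) (T : ℕ) : ℕ :=
  sSup {n | ∃ E : Finset X, E.card = n ∧ SepSet F R T E}

/-- Smallest covering number. -/
noncomputable def covR (F : X → X) (R : X → X → Prop) (T : ℕ) : ℕ :=
  sInf {n | Col F R T n}

theorem col_of_fintype {T : ℕ} {C : Type*} [Fintype C] (φ : X → C)
    (h : ∀ x y, φ x = φ y → ∀ t < T, R (F^[t] x) (F^[t] y)) : Col F R T (Fintype.card C) :=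
  ⟨fun x => Fintype.equivFin C (φ x), fun x y hxy => h x y ((Fintype.equivFin C).injective hxy)⟩

theorem sepSet_card_le {T n : ℕ} (h : Col F R T n) {E : Finset X} (hE : SepSet F R T E) :
    E.card ≤ n := by
  classical
  obtain ⟨φ, hφ⟩ := h
  have h1 : E.card ≤ (Finset.univ : Finset (Fin n)).card := by
    apply Finset.card_le_card_of_injOn φ (fun _ _ => Finset.mem_univ _)
    intro x hx y hy hxy
    by_contra hne
    obtain ⟨t, ht, hR⟩ := hE x hx y hy hne
    exact hR (hφ x y hxy t ht)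
  simpa using h1

theorem covR_spec {T n : ℕ} (h : Col F R T n) : Col F R T (covR F R T) :=
  Nat.sInf_mem (s := {n | Col F R T n}) ⟨n, h⟩

theorem covR_le {T n : ℕ} (h : Col F R T n) : covR F R T ≤ n :=
  Nat.sInf_le h

theorem le_sepR {T n : ℕ} (h : Col F R T n) {E : Finset X} (hE : SepSet F R T E) :
    E.card ≤ sepR F R T :=
  le_csSup ⟨n, fun _ ⟨_, h1, h2⟩ => h1 ▸ sepSet_card_le h h2⟩ ⟨E, rfl, hE⟩

theorem sepR_le_covR {T n : ℕ} (h : Col F R T n) : sepR F R T ≤ covR F R T := by
  apply csSup_le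
  · exact ⟨0, ∅, rfl, fun x hx => by simp at hx⟩
  · rintro k ⟨E, rfl, hE⟩
    exact sepSet_card_le (covR_spec h) hE

theorem Col.mono {T n : ℕ} (hR : ∀ x y, R x y → R' x y) (h : Col F R T n) : Col F R' T n := by
  obtain ⟨φ, hφ⟩ := h
  exact ⟨φ, fun x y hxy t ht => hR _ _ (hφ x y hxy t ht)⟩

theorem sepR_mono {T n : ℕ} (hR : ∀ x y, R x y → R' x y) (h : Col F R T n) :
    sepR F R' T ≤ sepR F R T := by
  apply csSup_le
  · exact ⟨0, ∅, rfl, fun x hx => by simp at hx⟩
  · rintro k ⟨E, rfl, hE⟩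
    apply le_sepR h
    intro x hx y hy hxy
    obtain ⟨t, ht, hn⟩ := hE x hx y hy hxy
    exact ⟨t, ht, fun h => hn (hR _ _ h)⟩

theorem Col.add {T S n m : ℕ} (h1 : Col F R T n) (h2 : Col F R S m) : Col F R (T + S) (n * m) := by
  obtain ⟨φ, hφ⟩ := h1
  obtain ⟨ψ, hψ⟩ := h2
  have := col_of_fintype (F := F) (R := R) (T := T + S)
    (fun x => ((φ x, ψ (F^[T] x)) : Fin n × Fin m)) (by
      intro x y hxy t ht
      obtain ⟨e1, e2⟩ := Prod.mk.inj hxy
      rcases Nat.lt_or_ge t T with h | h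
      · exact hφ x y e1 t h
      · have := hψ _ _ e2 (t - T) (by omega)
        rwa [← Function.iterate_add_apply, ← Function.iterate_add_apply, Nat.sub_add_cancel h]
          at this)
  simpa using this

theorem Col.all {n : ℕ} (h : Col F R 1 n) (T : ℕ) : Col F R T (n ^ T) := by
  induction T with
  | zero => exact ⟨fun _ => ⟨0, by simp⟩, fun x y _ t ht => by omega⟩
  | succ T ih => simpa [pow_succ] using ih.add h

theorem covR_pos [Nonempty X] {T n : ℕ} (h : Col F R T n) : 0 < covR F R T := by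
  obtain ⟨φ, _⟩ := covR_spec h
  obtain ⟨x⟩ := ‹Nonempty X›
  exact (Nat.zero_le _).trans_lt (φ x).2

theorem sepR_pos [Nonempty X] {T n : ℕ} (h : Col F R T n) : 0 < sepR F R T := by
  obtain ⟨x⟩ := ‹Nonempty X›
  have := le_sepR h (E := {x}) (by
    intro a ha b hb hab
    rw [Finset.mem_singleton] at ha hb
    exact absurd (ha.trans hb.symm) hab)
  exact Nat.lt_of_succ_le (by simpa using this)

theorem covR_add {n : ℕ} (h : Col F R 1 n) (T S : ℕ) :
    covR F R (T + S) ≤ covR F R T * covR F R S :=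
  covR_le ((covR_spec (h.all T)).add (covR_spec (h.all S)))

/-- The growth rate of the covering numbers exists. -/
theorem growth [Nonempty X] {n : ℕ} (h : Col F R 1 n) :
    ∃ c : ℝ, Tendsto (fun T : ℕ => Real.log (covR F R T) / T) atTop (𝓝 c) ∧
      (∀ T : ℕ, c * T ≤ Real.log (covR F R T)) ∧ c ≤ Real.log n := by
  have hpos : ∀ T, (0 : ℝ) < covR F R T := fun T => by exact_mod_cast covR_pos (h.all T)
  have hsub : Subadditive (fun T : ℕ => Real.log (covR F R T)) := by
    intro T S
    rw [← Real.log_mul (hpos T).ne' (hpos S).ne']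
    exact Real.log_le_log (hpos _) (by exact_mod_cast covR_add h T S)
  have hbdd : BddBelow (Set.range fun T : ℕ => Real.log (covR F R T) / T) := by
    refine ⟨0, ?_⟩
    rintro _ ⟨T, rfl⟩
    have : (1 : ℝ) ≤ covR F R T := by exact_mod_cast covR_pos (h.all T)
    exact div_nonneg (Real.log_nonneg this) (Nat.cast_nonneg _)
  have hle : ∀ T : ℕ, hsub.lim * T ≤ Real.log (covR F R T) := by
    intro T
    rcases Nat.eq_zero_or_pos T with rfl | hT
    · have : (1 : ℝ) ≤ covR F R 0 := by exact_mod_cast covR_pos (h.all 0)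
      simpa using Real.log_nonneg this
    · have hT' : (0 : ℝ) < T := by exact_mod_cast hT
      rw [← le_div_iff₀ hT']
      exact hsub.lim_le_div hbdd hT.ne'
  refine ⟨hsub.lim, hsub.tendsto_lim hbdd, hle, ?_⟩
  have h1 := hle 1
  have h2 : Real.log (covR F R 1) ≤ Real.log n :=
    Real.log_le_log (hpos 1) (by exact_mod_cast covR_le h)
  simpa using h1.trans h2

end Pool.Agent.Helper23.Weiss
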