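import Pool.Agent.Helper38.Weiss.Skew
import Pool.Agent.Helper38.Weiss.Label
import Pool.Agent.Helper88.Weiss.ErgSel

/-! Packet W-J5: the base measure. -/

open Set Filter Topology MeasureTheory Pool.Agent.Helper38.Weiss

namespace Pool.Agent.Helper23.Weiss

open Pool.Agent.Helper88.Weiss


/-- the graph map of the names -/
def gmap {X : Type*} (F : X → X) {n : ℕ} (P : X → Fin n) (x : X) : X × (ℕ → Fin n) :=
  (x, fun t => P (F^[t] x))

theorem gmap_semiconj {X : Type*} (F : X → X) {n : ℕ} (P : X → Fin n) :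
    Function.Semiconj (gmap F P) F (skew F n) := by
  intro x
  simp only [gmap, skew]
  refine Prod.ext rfl (funext fun t => ?_)
  change P (F^[t] (F x)) = P (F^[t + 1] x)
  rw [Function.iterate_succ_apply]

theorem measurable_gmap {X : Type*} [MeasurableSpace X] {F : X → X} (hF : Measurable F) {n : ℕ}
    {P : X → Fin n} (hP : Measurable P) : Measurable (gmap F P) :=
  measurable_id.prodMk (measurable_pi_lambda _ fun t => hP.comp (hF.iterate t))

theorem continuous_skew {X : Type*} [TopologicalSpace X] {F : X → X} (hF : Continuous F) (n : ℕ) :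
    Continuous (skew F n) :=
  (hF.comp continuous_fst).prodMk
    (continuous_pi fun t => (continuous_apply (t + 1)).comp continuous_snd)

theorem measurable_skew {X : Type*} [MeasurableSpace X] {F : X → X} (hF : Measurable F) (n : ℕ) :
    Measurable (skew F n) :=
  (hF.comp measurable_fst).prodMk
    (measurable_pi_lambda _ fun t => (measurable_pi_apply (t + 1)).comp measurable_snd)

theorem measurable_letter {X : Type*} [MeasurableSpace X] (n : ℕ) :
    Measurable (fun z : X × (ℕ → Fin n) => z.2 0) :=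
  (measurable_pi_apply 0).comp measurable_snd

theorem law_gmap {X : Type*} [MeasurableSpace X] (μ : Measure X) {F : X → X} (hF : Measurable F)
    {n : ℕ} {P : X → Fin n} (hP : Measurable P) (L : ℕ) (w : Fin L → Fin n) :
    law (μ.map (gmap F P)) (skew F n) (fun z => z.2 0) L w = law μ F P L w := by
  have hset : MeasurableSet {z : X × (ℕ → Fin n) | ∀ s : Fin L, ((skew F n)^[s] z).2 0 = w s} := by
    have : {z : X × (ℕ → Fin n) | ∀ s : Fin L, ((skew F n)^[s] z).2 0 = w s} =
        ⋂ s : Fin L, (fun z => ((skew F n)^[s] z).2 0) ⁻¹' {w s} := by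
      ext z; simp
    rw [this]
    exact MeasurableSet.iInter fun s =>
      ((measurable_letter n).comp ((measurable_skew hF n).iterate s)) (measurableSet_singleton _)
  rw [law, Measure.map_apply (measurable_gmap hF hP) hset, law]
  congr 2
  ext x
  simp only [mem_preimage, mem_ofPred_eq]
  refine forall_congr' fun s => ?_
  rw [← ((gmap_semiconj F P).iterate_right s) x]
  rfl

theorem hInf_gmap {X : Type*} [MeasurableSpace X] (μ : Measure X) {F : X → X} (hF : Measurable F)
    {n : ℕ} {P : X → Fin n} (hP : Measurable P) :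
    hInf (μ.map (gmap F P)) (skew F n) (fun z => z.2 0) = hInf μ F P := by
  simp only [hInf]
  refine iInf_congr fun L => ?_
  have : law (μ.map (gmap F P)) (skew F n) (fun z => z.2 0) (L + 1) = law μ F P (L + 1) :=
    funext fun w => law_gmap μ hF hP (L + 1) w
  rw [this]

/-- The entropy rate is at most the logarithm of the number of letters. -/
theorem hInf_le_log {X : Type*} [MeasurableSpace X] (ν : Measure X) [IsProbabilityMeasure ν]
    (F : X → X) (hF : Measurable F) {n : ℕ} (P : X → Fin n) (hP : Measurable P) :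
    hInf ν F P ≤ Real.log n := by
  have hbdd : BddBelow (Set.range fun L : ℕ => ent (law ν F P (L + 1)) / ((L : ℝ) + 1)) := by
    refine ⟨0, ?_⟩
    rintro _ ⟨L, rfl⟩
    exact div_nonneg (ent_nonneg _ (law_nonneg ν F P _) (sum_law ν F hF P hP _).le)
      (by positivity)
  refine (ciInf_le hbdd 0).trans ?_
  simp only [Nat.cast_zero, zero_add, div_one]
  refine (ent_le_log_card _ (law_nonneg ν F P _) (sum_law ν F hF P hP _)).trans ?_
  simp

/-- W-J5 with the statements of W-J1 and W-J4 as hypotheses. -/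
theorem base_measure_of {X : Type*} [MetricSpace X] [CompactSpace X] [MeasurableSpace X]
    [BorelSpace X] (F : X → X)
    (misiurewicz : ∀ (ε₁ : ℝ), 0 < ε₁ → ∀ (h₁ : ℝ),
      (∀ T : ℕ, 0 < T → ∃ E : Finset X, (∀ x ∈ E, ∀ y ∈ E, x ≠ y →
        ∃ t < T, ε₁ ≤ dist (F^[t] x) (F^[t] y)) ∧ Real.exp (h₁ * T) ≤ E.card) →
      ∃ μ : Measure X, IsProbabilityMeasure μ ∧ MeasurePreserving F μ μ ∧
        ∀ (n : ℕ) (P : X → Fin n), Measurable P → (∀ x y, P x = P y → dist x y < ε₁) →
          (∀ (L : ℕ) (b : Fin L → Fin n),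
            μ (frontier {x | ∀ s : Fin L, P (F^[s] x) = b s}) = 0) →
          ∀ L : ℕ, h₁ * L ≤ ent (law μ F P L))
    (base_count : ∀ (n : ℕ) (θ : ℝ), 0 < θ → ∃ κ > 0,
      ∀ (K : Fin n → Set X), (∀ i, IsClosed (K i)) → (∀ i j, i ≠ j → Disjoint (K i) (K j)) →
      ∀ (m : Measure (X × (ℕ → Fin n))), IsProbabilityMeasure m → Ergodic (skew F n) m →
      ∀ B : Set (X × (ℕ → Fin n)), MeasurableSet B → (∀ z, z ∉ B → z.1 ∈ K (z.2 0)) →
      (m B).toReal < κ → ∀ A : ℕ → Set X, (∀ T, MeasurableSet (A T)) →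
      Tendsto (fun T => m (Prod.fst ⁻¹' A T)) atTop (𝓝 1) → ∃ T₀ : ℕ, ∀ T ≥ T₀,
      ∃ E : Finset X, (∀ x ∈ E, x ∈ A T) ∧
        (∀ x ∈ E, ∀ y ∈ E, x ≠ y → Conf F {z | ∃ i j, i ≠ j ∧ z.1 ∈ K i ∧ z.2 ∈ K j} T x y) ∧
        Real.exp (T * (hInf m (skew F n) (fun z => z.2 0) - θ)) ≤ E.card)
    (hFc : Continuous F) (ε₁ : ℝ) (hε₁ : 0 < ε₁) (h₀ h₁ : ℝ)
    (h01 : h₀ < h₁) (hsep : ∀ T : ℕ, 0 < T → ∃ E : Finset X, (∀ x ∈ E, ∀ y ∈ E, x ≠ y →
      ∃ t < T, ε₁ ≤ dist (F^[t] x) (F^[t] y)) ∧ Real.exp (h₁ * T) ≤ E.card) :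
    ∃ ν : Measure X, IsProbabilityMeasure ν ∧ Ergodic F ν ∧ ∃ S' : Set (X × X), IsClosed S' ∧
      Sym S' ∧ (∀ x, (x, x) ∉ S') ∧ ∀ A : ℕ → Set X, (∀ T, MeasurableSet (A T)) →
        Tendsto (fun T => ν (A T)) atTop (𝓝 1) → ∃ T₀ : ℕ, ∀ T ≥ T₀, ∃ E : Finset X,
          (∀ x ∈ E, x ∈ A T) ∧ (∀ x ∈ E, ∀ y ∈ E, x ≠ y → Conf F S' T x y) ∧
          Real.exp (h₀ * T) ≤ E.card := by
  classical
  set θ : ℝ := (h₁ - h₀) / 2 with hθdef
  have hθ : 0 < θ := by rw [hθdef]; linarith
  obtain ⟨μ, hμ, hinv, hent⟩ := misiurewicz ε₁ hε₁ h₁ hsep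
  obtain ⟨n, hn, P, hPm, hPd, hPf⟩ := exists_label hFc μ hinv hε₁
  have hh : h₁ ≤ hInf μ F P := by
    refine le_ciInf fun L => ?_
    rw [le_div_iff₀ (by positivity)]
    have := hent n P hPm hPd hPf (L + 1)
    push_cast at this
    exact this
  obtain ⟨κ, hκ, hbase⟩ := base_count n θ hθ
  set M' : ℝ := Real.log n - h₁ + θ / 2 with hM'
  set C : ℝ := (|M'| + 1) / κ with hCdef
  have hC : 0 < C := by positivity
  -- the frontiers are null
  have hfr : ∀ i, μ (frontier (P ⁻¹' {i})) = 0 := by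
    intro i
    have h1 := hPf 1 (fun _ => i)
    have h2 : {x : X | ∀ s : Fin 1, P (F^[(s : ℕ)] x) = i} = P ⁻¹' {i} := by
      ext x
      simp
    rwa [h2] at h1
  obtain ⟨U, hUsub, hUo, hU⟩ := (⋃ i, frontier (P ⁻¹' {i})).exists_isOpen_le_add μ
    (show ENNReal.ofReal (θ / (2 * C)) ≠ 0 by
      simp only [ne_eq, ENNReal.ofReal_eq_zero, not_le]; positivity)
  have hUμ : (μ U).toReal ≤ θ / (2 * C) := by
    rw [measure_iUnion_null hfr, zero_add] at hU
    exact ENNReal.toReal_le_of_le_ofReal (by positivity) hU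
  -- the product system
  set m₀ : Measure (X × (ℕ → Fin n)) := μ.map (gmap F P) with hm₀
  have hgm : Measurable (gmap F P) := measurable_gmap hFc.measurable hPm
  have : IsProbabilityMeasure m₀ := Measure.isProbabilityMeasure_map hgm.aemeasurable
  have hpm₀ : MeasurePreserving (skew F n) m₀ m₀ := by
    refine ⟨measurable_skew hFc.measurable n, ?_⟩
    rw [hm₀, Measure.map_map (measurable_skew hFc.measurable n) hgm,
      ← (gmap_semiconj F P).comp_eq, ← Measure.map_map hgm hFc.measurable, hinv.map_eq]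
  have hh₀ : hInf m₀ (skew F n) (fun z => z.2 0) = hInf μ F P :=
    hInf_gmap μ hFc.measurable hPm
  set B : Set (X × (ℕ → Fin n)) := {z | z.1 ∉ closure (P ⁻¹' {z.2 0})} ∪ {z | z.1 ∈ U} with hB
  have hBo : IsOpen B := by
    refine IsOpen.union ?_ (hUo.preimage continuous_fst)
    have : {z : X × (ℕ → Fin n) | z.1 ∉ closure (P ⁻¹' {z.2 0})} =
        ⋃ i : Fin n, (Prod.fst ⁻¹' (closure (P ⁻¹' {i}))ᶜ) ∩
          ((fun z : X × (ℕ → Fin n) => z.2 0) ⁻¹' {i}) := by
      ext z
      simp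
    rw [this]
    refine isOpen_iUnion fun i => IsOpen.inter ?_ ?_
    · exact isClosed_closure.isOpen_compl.preimage continuous_fst
    · exact (isOpen_discrete _).preimage ((continuous_apply 0).comp continuous_snd)
  have hBμ : m₀ B = μ U := by
    rw [hm₀, Measure.map_apply hgm hBo.measurableSet]
    congr 1
    ext x
    simp only [hB, mem_preimage, mem_union, mem_ofPred_eq, gmap]
    constructor
    · rintro (h | h)
      · exact absurd (subset_closure (show x ∈ P ⁻¹' {P (F^[0] x)} from rfl)) h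
      · exact h
    · exact Or.inr
  obtain ⟨m, hm, hmerg, hmJ⟩ := ergodic_selection (skew F n) (continuous_skew hFc n)
    (fun z => z.2 0) ((continuous_apply 0).comp continuous_snd) B hBo C hC.le m₀ hpm₀
  have hJ : h₁ - θ / 2 ≤ hInf m (skew F n) (fun z => z.2 0) - C * (m B).toReal := by
    refine le_trans ?_ hmJ
    rw [hh₀, hBμ]
    have : C * (μ U).toReal ≤ θ / 2 := by
      calc C * (μ U).toReal ≤ C * (θ / (2 * C)) := by gcongr
        _ = θ / 2 := by field_simp
    linarith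
  have hlog := hInf_le_log m (skew F n) (measurable_skew hFc.measurable n) (fun z => z.2 0)
    (measurable_letter n)
  have hmB : (m B).toReal < κ := by
    by_contra hcon
    push Not at hcon
    have h1 : |M'| + 1 ≤ C * (m B).toReal := by
      calc |M'| + 1 = C * κ := by rw [hCdef]; field_simp
        _ ≤ C * (m B).toReal := by gcongr
    have h2 := le_abs_self M'
    linarith
  have hmh : h₁ - θ / 2 ≤ hInf m (skew F n) (fun z => z.2 0) := by
    have : 0 ≤ C * (m B).toReal := by positivity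
    linarith
  -- the closed sets
  set K : Fin n → Set X := fun i => closure (P ⁻¹' {i}) \ U with hK
  have hKc : ∀ i, IsClosed (K i) := fun i => isClosed_closure.sdiff hUo
  have hKd : ∀ i j, i ≠ j → Disjoint (K i) (K j) := by
    have key : ∀ i x, x ∈ K i → P x = i := by
      intro i x hx
      by_contra hne
      refine hx.2 (hUsub (mem_iUnion.2 ⟨i, hx.1, fun hint => hne ?_⟩))
      have h3 : x ∈ P ⁻¹' {i} := interior_subset hint
      exact h3
    intro i j hij
    rw [Set.disjoint_left]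
    intro x hx hx'
    exact hij ((key i x hx).symm.trans (key j x hx'))
  have hBK : ∀ z, z ∉ B → z.1 ∈ K (z.2 0) := by
    intro z hz
    simp only [hB, mem_union, mem_ofPred_eq, not_or, not_not] at hz
    exact ⟨hz.1, hz.2⟩
  have := hm
  have hfst : MeasurePreserving Prod.fst m (m.map Prod.fst) := measurable_fst.measurePreserving m
  refine ⟨m.map Prod.fst, Measure.isProbabilityMeasure_map measurable_fst.aemeasurable,
    hfst.ergodic_of_ergodic_semiconj hmerg hFc.measurable (fun _ => rfl),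
    {z | ∃ i j, i ≠ j ∧ z.1 ∈ K i ∧ z.2 ∈ K j}, ?_, ?_, ?_, ?_⟩
  · have : {z : X × X | ∃ i j, i ≠ j ∧ z.1 ∈ K i ∧ z.2 ∈ K j} =
        ⋃ p ∈ {p : Fin n × Fin n | p.1 ≠ p.2}, K p.1 ×ˢ K p.2 := by
      ext z
      simp only [mem_ofPred_eq, mem_iUnion, mem_prod, Prod.exists, exists_prop]
    rw [this]
    exact (Set.toFinite _).isClosed_biUnion fun p _ => (hKc _).prod (hKc _)
  · rintro x y ⟨i, j, hij, hx, hy⟩
    exact ⟨j, i, hij.symm, hy, hx⟩
  · rintro x ⟨i, j, hij, hx, hy⟩
    exact Set.disjoint_left.1 (hKd i j hij) hx hy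
  · intro A hA hA1
    have hA2 : Tendsto (fun T => m (Prod.fst ⁻¹' A T)) atTop (𝓝 1) := by
      refine hA1.congr fun T => ?_
      rw [Measure.map_apply measurable_fst (hA T)]
    obtain ⟨T₀, hT₀⟩ := hbase K hKc hKd m hm hmerg B hBo.measurableSet hBK hmB A hA hA2
    refine ⟨T₀, fun T hT => ?_⟩
    obtain ⟨E, hE1, hE2, hE3⟩ := hT₀ T hT
    refine ⟨E, hE1, hE2, le_trans (Real.exp_le_exp.2 ?_) hE3⟩
    rw [mul_comm]
    refine mul_le_mul_of_nonneg_left ?_ (Nat.cast_nonneg T)
    have : h₀ = h₁ - 2 * θ := by rw [hθdef]; ring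
    linarith

end Pool.Agent.Helper23.Weiss
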